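import Pool.Agent.Lib.MP_1d5e93_al.Walk

set_option autoImplicit false
set_option linter.unusedSectionVars false

namespace Pool.Agent.Lib.MP_1d5e93_al

open Relation

variable {V : Type} [DecidableEq V] {G : SimpleGraph V} {ρ : V → ℕ}

/-- One alternating step through a matched pair `(h, μ h)`. -/
def Stp (G : SimpleGraph V) (b : V → V → Prop) (H : Finset V) (μ : V → V) (p q : V) : Prop :=
  ∃ h ∈ H, G.Adj p h ∧ b p h ∧ q = μ h

/-- Alternating walks. -/
def Rch (G : SimpleGraph V) (b : V → V → Prop) (H : Finset V) (μ : V → V) : V → V → Prop :=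
  ReflTransGen (Stp G b H μ)

/-- Alternating walks followed by an edge. -/
def To (G : SimpleGraph V) (b : V → V → Prop) (H : Finset V) (μ : V → V) (p c : V) : Prop :=
  ∃ q, Rch G b H μ p q ∧ G.Adj q c

/-- No restriction. -/
def gen : V → V → Prop := fun _ _ => True

/-- Ascending steps. -/
def asc (ρ : V → ℕ) : V → V → Prop := fun p h => ρ p < ρ h

/-- There is an ascending chain from `a` up to `c`. -/
def Up (G : SimpleGraph V) (ρ : V → ℕ) (H : Finset V) (μ : V → V) (a c : V) : Prop :=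
  ρ a < ρ c ∧ To G (asc ρ) H μ a c

/-- Neighbours in the reduced graph. -/
def Nb (G : SimpleGraph V) (ρ : V → ℕ) (H : Finset V) (μ : V → V) (a c : V) : Prop :=
  Up G ρ H μ a c ∨ Up G ρ H μ c a

variable {b b' : V → V → Prop} {U U' H H' NS : Finset V} {μ μ' : V → V}

theorem Rch.refl' (p : V) : Rch G b H μ p p := ReflTransGen.refl

theorem Rch.weak {p q : V} (h : Rch G b H μ p q) (hH : H ⊆ H') (hb : ∀ p h, b p h → b' p h) :
    Rch G b' H' μ p q := by
  induction h with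
  | refl => exact ReflTransGen.refl
  | tail _ h ih =>
    obtain ⟨x, h1, h2, h3, h4⟩ := h
    exact ReflTransGen.tail ih ⟨x, hH h1, h2, hb _ _ h3, h4⟩

theorem Rch.gen' {p q : V} (h : Rch G b H μ p q) : Rch G gen H μ p q :=
  h.weak subset_rfl fun _ _ _ => trivial

theorem Rch.sub {p q : V} (h : Rch G b H μ p q) (hH : H ⊆ H') : Rch G b H' μ p q :=
  h.weak hH fun _ _ h => h

theorem Rch.tr {p q r : V} (h : Rch G b H μ p q) (h' : Rch G b H μ q r) : Rch G b H μ p r :=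
  ReflTransGen.trans h h'

theorem Rch.snoc {p q x : V} (h : Rch G b H μ p q) (hx : x ∈ H) (h1 : G.Adj q x) (h2 : b q x) :
    Rch G b H μ p (μ x) := ReflTransGen.tail h ⟨x, hx, h1, h2, rfl⟩

theorem Rch.cons {p q x : V} (hx : x ∈ H) (h1 : G.Adj p x) (h2 : b p x)
    (h : Rch G b H μ (μ x) q) : Rch G b H μ p q := ReflTransGen.head ⟨x, hx, h1, h2, rfl⟩ h

theorem Rch.last {p q : V} (h : Rch G b H μ p q) : q = p ∨ ∃ x ∈ H, q = μ x := by
  rcases ReflTransGen.cases_tail h with h | ⟨_, _, x, h1, _, _, h2⟩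
  · exact Or.inl h
  · exact Or.inr ⟨x, h1, h2⟩

theorem Rch.first {p q : V} (h : Rch G b H μ p q) :
    p = q ∨ ∃ x ∈ H, G.Adj p x ∧ b p x ∧ Rch G b H μ (μ x) q := by
  rcases ReflTransGen.cases_head h with h | ⟨_, ⟨x, h1, h2, h3, rfl⟩, h4⟩
  · exact Or.inl h
  · exact Or.inr ⟨x, h1, h2, h3, h4⟩

theorem To.of_adj {p c : V} (h : G.Adj p c) : To G b H μ p c := ⟨p, ReflTransGen.refl, h⟩

theorem To.gen' {p c : V} (h : To G b H μ p c) : To G gen H μ p c :=
  let ⟨q, h1, h2⟩ := h; ⟨q, h1.gen', h2⟩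

theorem To.sub {p c : V} (h : To G b H μ p c) (hH : H ⊆ H') : To G b H' μ p c :=
  let ⟨q, h1, h2⟩ := h; ⟨q, h1.sub hH, h2⟩

theorem Rch.to {p q c : V} (h : Rch G b H μ p q) (h' : To G b H μ q c) : To G b H μ p c :=
  let ⟨r, h1, h2⟩ := h'; ⟨r, h.tr h1, h2⟩

theorem To.cons {p c x : V} (hx : x ∈ H) (h1 : G.Adj p x) (h2 : b p x)
    (h : To G b H μ (μ x) c) : To G b H μ p c :=
  let ⟨r, h3, h4⟩ := h; ⟨r, Rch.cons hx h1 h2 h3, h4⟩

theorem Up.sub {a c : V} (h : Up G ρ H μ a c) (hH : H ⊆ H') : Up G ρ H' μ a c :=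
  ⟨h.1, h.2.sub hH⟩

theorem Nb.symm {a c : V} (h : Nb G ρ H μ a c) : Nb G ρ H μ c a := Or.symm h

theorem Nb.ne {a c : V} (h : Nb G ρ H μ a c) : a ≠ c := by
  rintro rfl
  rcases h with h | h <;> exact absurd h.1 (lt_irrefl _)

/-- The invariants of a state. -/
structure Inv0 (G : SimpleGraph V) (ρ : V → ℕ) (U H : Finset V) (μ : V → V) : Prop where
  hU : ∀ h ∈ H, h ∉ U
  lU : ∀ h ∈ H, μ h ∉ U
  lH : ∀ h ∈ H, μ h ∉ H
  inj : ∀ h ∈ H, ∀ h' ∈ H, μ h = μ h' → h = h'
  adj : ∀ h ∈ H, G.Adj (μ h) h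
  lt : ∀ h ∈ H, ρ (μ h) < ρ h
  top : ∀ h ∈ H, ∀ c ∈ U, To G gen H μ (μ h) c → ρ h < ρ c
  ind : ∀ h ∈ H, ∀ h' ∈ H, ¬ G.Adj (μ h) (μ h')

theorem Inv0.mono (I : Inv0 G ρ U H μ) (hU : U' ⊆ U) (hH : H' ⊆ H) : Inv0 G ρ U' H' μ where
  hU := fun h hh e => I.hU h (hH hh) (hU e)
  lU := fun h hh e => I.lU h (hH hh) (hU e)
  lH := fun h hh e => I.lH h (hH hh) (hH e)
  inj := fun h hh h' hh' => I.inj h (hH hh) h' (hH hh')
  adj := fun h hh => I.adj h (hH hh)
  lt := fun h hh => I.lt h (hH hh)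
  top := fun h hh c hc e => I.top h (hH hh) c (hU hc) (e.sub hH)
  ind := fun h hh h' hh' => I.ind h (hH hh) h' (hH hh')

theorem Inv0.lt_of_asc (I : Inv0 G ρ U H μ) {a p c : V} (h : Rch G (asc ρ) H μ a p)
    (hp : ρ p < ρ c) (h' : To G gen H μ p c) (hc : c ∈ U) : ρ a < ρ c := by
  rcases h.first with rfl | ⟨x, h1, _, h3, h4⟩
  · exact hp
  · have := I.top x h1 c hc (h4.gen'.to h')
    have h5 : ρ a < ρ x := h3
    omega

theorem Inv0.good (hp : PEO G ρ) (I : Inv0 G ρ U H μ) {p q w : V} (h : Rch G gen H μ p q)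
    (hq : G.Adj q w) (hw : w ∈ U) : ∀ v, ρ v < ρ w → v ∉ H →
      (v = p ∨ (ρ p < ρ v ∧ Low G ρ (ρ v) v p)) → To G (asc ρ) H μ v w := by
  induction h using ReflTransGen.head_induction_on with
  | refl =>
    intro v hv _ h
    rcases h with rfl | ⟨h1, h2⟩
    · exact To.of_adj hq
    · exact To.of_adj ((Low.step h2 h1 hq).adj hp le_rfl hv.le (fun e => by rw [e] at hv; omega))
  | @head p p' h1 h2 ih =>
    obtain ⟨x, hx, h3, _, rfl⟩ := h1
    intro v hv hvH h
    have h4 : Low G ρ (ρ v) v x := by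
      rcases h with rfl | ⟨h1, h2⟩
      · exact Low.base h3
      · exact Low.step h2 h1 h3
    have hne : x ≠ v := fun e => hvH (e ▸ hx)
    have h5 := I.lt x hx
    rcases lt_trichotomy (ρ v) (ρ x) with h6 | h6 | h6
    · have h7 := I.top x hx w hw ⟨q, h2, hq⟩
      exact To.cons hx (h4.adj hp le_rfl h6.le hne) h6
        (ih (μ x) (by omega) (I.lH x hx) (Or.inl rfl))
    · exact absurd (hp.inj h6).symm hne
    · exact ih v hv hvH (Or.inr ⟨by omega, Low.step h4 h6 (I.adj x hx).symm⟩)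

theorem Inv0.back (I : Inv0 G ρ U H μ) {p q w : V} (h : Rch G gen H μ p q)
    (hq : G.Adj q w) (hw : w ∈ U) : Low G ρ (ρ w) w p := by
  induction h using ReflTransGen.head_induction_on with
  | refl => exact Low.base hq.symm
  | @head p p' h1 h2 ih =>
    obtain ⟨x, hx, h3, _, rfl⟩ := h1
    have h7 := I.top x hx w hw ⟨q, h2, hq⟩
    have h5 := I.lt x hx
    exact Low.step (Low.step ih (by omega) (I.adj x hx)) h7 h3.symm

theorem Inv0.conv (hp : PEO G ρ) (I : Inv0 G ρ U H μ) {u w : V} (hu : u ∈ U) (hw : w ∈ U)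
    (hne : u ≠ w) (h : To G gen H μ u w) : Nb G ρ H μ u w := by
  obtain ⟨q, h1, h2⟩ := h
  rcases lt_trichotomy (ρ u) (ρ w) with h3 | h3 | h3
  · exact Or.inl ⟨h3, I.good hp h1 h2 hw u h3 (fun e => I.hU u e hu) (Or.inl rfl)⟩
  · exact absurd (hp.inj h3) hne
  · exact Or.inr ⟨h3, To.of_adj ((I.back h1 h2 hw).adj hp le_rfl h3.le hne)⟩

/-- Rematching along an ascending chain from `s` to `t`. -/
structure Aug (G : SimpleGraph V) (ρ : V → ℕ) (H : Finset V) (μ : V → V) (s t : V)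
    (P : Finset V) (μ' : V → V) : Prop where
  tH : t ∉ H
  sL : s ∉ H.image μ
  sub : P ⊆ H
  off : ∀ h ∈ H, h ∉ P → μ' h = μ h
  img : (insert t P).image μ' = insert s (P.image μ)
  inj : ∀ h ∈ insert t H, ∀ h' ∈ insert t H, μ' h = μ' h' → h = h'
  adj : ∀ h ∈ insert t P, G.Adj (μ' h) h ∧ ρ (μ' h) < ρ h
  frm : ∀ h ∈ P, Rch G (asc ρ) H μ s (μ h)
  ind : ∀ Q : V → Prop, Q t → (∀ h ∈ P, ∀ h2 ∈ insert t P, μ' h2 = μ h → Q h2 → Q h) →
    ∀ h ∈ P, Q h

theorem Rch.avoid {p q : V} (x : V) (h : Rch G b H μ p q) :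
    Rch G b (H.erase x) μ p q ∨ Rch G b (H.erase x) μ (μ x) q := by
  induction h with
  | refl => exact Or.inl ReflTransGen.refl
  | tail _ h ih =>
    obtain ⟨y, h1, h2, h3, rfl⟩ := h
    by_cases e : y = x
    · subst e; exact Or.inr ReflTransGen.refl
    · rcases ih with ih | ih
      · exact Or.inl (ih.snoc (Finset.mem_erase.mpr ⟨e, h1⟩) h2 h3)
      · exact Or.inr (ih.snoc (Finset.mem_erase.mpr ⟨e, h1⟩) h2 h3)

theorem Aug.range {s t : V} {P : Finset V} (A : Aug G ρ H μ s t P μ') :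
    (insert t H).image μ' = insert s (H.image μ) := by
  ext v
  have h1 := Finset.ext_iff.mp A.img v
  simp only [Finset.mem_image, Finset.mem_insert] at h1 ⊢
  constructor
  · rintro ⟨h, hh, rfl⟩
    by_cases e : h = t ∨ h ∈ P
    · rcases h1.mp ⟨h, e, rfl⟩ with h2 | ⟨x, h2, h3⟩
      · exact Or.inl h2
      · exact Or.inr ⟨x, A.sub h2, h3⟩
    · push Not at e
      have := hh.resolve_left e.1
      exact Or.inr ⟨h, this, (A.off h this e.2).symm⟩
  · rintro (rfl | ⟨h, hh, rfl⟩)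
    · obtain ⟨x, h2, h3⟩ := h1.mpr (Or.inl rfl)
      exact ⟨x, h2.imp id fun e => A.sub e, h3⟩
    · by_cases e : h ∈ P
      · obtain ⟨x, h2, h3⟩ := h1.mpr (Or.inr ⟨h, e, rfl⟩)
        exact ⟨x, h2.imp id fun e => A.sub e, h3⟩
      · exact ⟨h, Or.inr hh, A.off h hh e⟩

theorem exists_aug {t q : V} (hq : G.Adj q t) (hlt : ρ q < ρ t) (n : ℕ) :
    ∀ (H : Finset V) (s : V), H.card ≤ n → (∀ h ∈ H, ∀ h' ∈ H, μ h = μ h' → h = h') →
      s ∉ H.image μ → t ∉ H → Rch G (asc ρ) H μ s q → ∃ P μ', Aug G ρ H μ s t P μ' := by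
  have base : ∀ (H : Finset V), (∀ h ∈ H, ∀ h' ∈ H, μ h = μ h' → h = h') →
      q ∉ H.image μ → t ∉ H → ∃ P μ', Aug G ρ H μ q t P μ' := by
    intro H hinj hs ht
    have hoff : ∀ h ∈ H, Function.update μ t q h = μ h := fun h hh =>
      Function.update_of_ne (fun e : h = t => ht (e ▸ hh)) _ _
    refine ⟨∅, Function.update μ t q, ht, hs, Finset.empty_subset _, fun h hh _ => hoff h hh, by simp,
      fun h hh h' hh' e => ?_, by simpa using ⟨hq, hlt⟩, by simp, by simp⟩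
    rcases Finset.mem_insert.mp hh with e1 | hh <;> rcases Finset.mem_insert.mp hh' with e2 | hh'
    · rw [e1, e2]
    · rw [hoff h' hh', e1, Function.update_self] at e
      exact absurd (Finset.mem_image.mpr ⟨h', hh', e.symm⟩) hs
    · rw [hoff h hh, e2, Function.update_self] at e
      exact absurd (Finset.mem_image.mpr ⟨h, hh, e⟩) hs
    · rw [hoff h hh, hoff h' hh'] at e
      exact hinj h hh h' hh' e
  induction n with
  | zero =>
    intro H s hH hinj hs ht h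
    rcases h.first with rfl | ⟨x, h1, _⟩
    · exact base H hinj hs ht
    · have := Finset.card_pos.mpr ⟨x, h1⟩
      omega
  | succ n ih =>
    intro H s hH hinj hs ht h
    rcases h.first with rfl | ⟨x, h1, h2, h3, h4⟩
    · exact base H hinj hs ht
    have h5 : Rch G (asc ρ) (H.erase x) μ (μ x) q := (h4.avoid x).elim id id
    obtain ⟨P, ν, A⟩ := ih (H.erase x) (μ x) (by rw [Finset.card_erase_of_mem h1]; omega)
      (fun h hh h' hh' => hinj h (Finset.mem_of_mem_erase hh) h' (Finset.mem_of_mem_erase hh'))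
      (by
        intro e
        obtain ⟨y, e1, e2⟩ := Finset.mem_image.mp e
        exact (Finset.mem_erase.mp e1).1 (hinj y (Finset.mem_of_mem_erase e1) x h1 e2))
      (fun e => ht (Finset.mem_of_mem_erase e)) h5
    have hxt : t ≠ x := fun e => ht (e ▸ h1)
    have hxP : x ∉ P := fun e => Finset.notMem_erase x H (A.sub e)
    have hne : ∀ h ∈ insert t P, h ≠ x := by
      intro h hh e
      rcases Finset.mem_insert.mp hh with h6 | h6
      · exact hxt (h6.symm.trans e)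
      · exact hxP (e ▸ h6)
    have hoff : ∀ h, h ≠ x → Function.update ν x s h = ν h := fun h hh =>
      Function.update_of_ne hh _ _
    have hmem : ∀ h ∈ insert t H, h ≠ x → h ∈ insert t (H.erase x) := by
      intro h hh e
      rcases Finset.mem_insert.mp hh with h6 | h6
      · exact Finset.mem_insert.mpr (Or.inl h6)
      · exact Finset.mem_insert.mpr (Or.inr (Finset.mem_erase.mpr ⟨e, h6⟩))
    have hns : ∀ h ∈ insert t (H.erase x), ν h ≠ s := by
      intro h hh e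
      have h6 : ν h ∈ (insert t (H.erase x)).image ν := Finset.mem_image_of_mem _ hh
      rw [A.range, e] at h6
      rcases Finset.mem_insert.mp h6 with h7 | h7
      · exact hs (Finset.mem_image.mpr ⟨x, h1, h7.symm⟩)
      · exact hs (Finset.image_subset_image (Finset.erase_subset _ _) h7)
    refine ⟨insert x P, Function.update ν x s, ht, hs, ?_, ?_, ?_, ?_, ?_, ?_, ?_⟩
    · exact Finset.insert_subset h1 (A.sub.trans (Finset.erase_subset _ _))
    · intro h hh e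
      simp only [Finset.mem_insert, not_or] at e
      rw [hoff h e.1, A.off h (Finset.mem_erase.mpr ⟨e.1, hh⟩) e.2]
    · rw [Finset.insert_comm, Finset.image_insert, Function.update_self, Finset.image_insert μ,
        ← A.img]
      congr 1
      exact Finset.image_congr fun h hh => hoff h (hne h hh)
    · intro h hh h' hh' e
      by_cases e1 : h = x <;> by_cases e2 : h' = x
      · rw [e1, e2]
      · rw [e1, Function.update_self, hoff h' e2] at e
        exact absurd e.symm (hns h' (hmem h' hh' e2))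
      · rw [e2, Function.update_self, hoff h e1] at e
        exact absurd e (hns h (hmem h hh e1))
      · rw [hoff h e1, hoff h' e2] at e
        exact A.inj h (hmem h hh e1) h' (hmem h' hh' e2) e
    · intro h hh
      rw [Finset.insert_comm] at hh
      rcases Finset.mem_insert.mp hh with rfl | hh
      · rw [Function.update_self]; exact ⟨h2, h3⟩
      · rw [hoff h (hne h hh)]; exact A.adj h hh
    · intro h hh
      rcases Finset.mem_insert.mp hh with rfl | hh
      · exact Rch.cons h1 h2 h3 ReflTransGen.refl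
      · exact Rch.cons h1 h2 h3 ((A.frm h hh).sub (Finset.erase_subset _ _))
    · intro Q hQ hstep
      have hsub : ∀ h ∈ insert t P, h ∈ insert t (insert x P) := fun h hh =>
        Finset.insert_subset_insert _ (Finset.subset_insert _ _) hh
      have hP : ∀ h ∈ P, Q h := A.ind Q hQ fun h hh h2 hh2 e =>
        hstep h (Finset.mem_insert_of_mem hh) h2 (hsub h2 hh2) (by rw [hoff h2 (hne h2 hh2), e])
      intro h hh
      rcases Finset.mem_insert.mp hh with rfl | hh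
      · have h6 : μ h ∈ (insert t P).image ν := by
          rw [A.img]; exact Finset.mem_insert_self _ _
        obtain ⟨h2, h7, h8⟩ := Finset.mem_image.mp h6
        refine hstep h (Finset.mem_insert_self _ _) h2 (hsub h2 h7)
          (by rw [hoff h2 (hne h2 h7), h8]) ?_
        rcases Finset.mem_insert.mp h7 with rfl | h7
        · exact hQ
        · exact hP h2 h7
      · exact hP h hh

theorem Inv0.aug (I : Inv0 G ρ U H μ) {s t : V} (hs : s ∈ U) (ht : t ∈ U)
    (h : Up G ρ H μ s t) : ∃ P μ', Aug G ρ H μ s t P μ' := by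
  obtain ⟨h1, q, h2, h3⟩ := h
  refine exists_aug h3 ?_ _ H s le_rfl I.inj ?_ (fun e => I.hU t e ht) h2
  · rcases h2.last with rfl | ⟨x, hx, rfl⟩
    · exact h1
    · have := I.top x hx t ht (To.of_adj h3)
      have := I.lt x hx
      omega
  · intro e
    obtain ⟨x, hx, rfl⟩ := Finset.mem_image.mp e
    exact I.lU x hx hs

section

variable {s t : V} {P : Finset V}

theorem Aug.to (A : Aug G ρ H μ s t P μ') : ∀ h ∈ P, To G (asc ρ) H μ (μ h) t := by
  intro h hh
  have key := A.ind (fun h => h = t ∨ To G (asc ρ) H μ (μ h) t) (Or.inl rfl) ?_ h hh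
  · exact key.resolve_left fun e => A.tH (e ▸ A.sub hh)
  · intro h hh h2 hh2 e hQ
    obtain ⟨h3, h4⟩ := A.adj h2 hh2
    rw [e] at h3 h4
    rcases Finset.mem_insert.mp hh2 with rfl | hh2
    · exact Or.inr (To.of_adj h3)
    · exact Or.inr (To.cons (A.sub hh2) h3 h4
        (hQ.resolve_left fun e => A.tH (e ▸ A.sub hh2)))

theorem Aug.frm' (A : Aug G ρ H μ s t P μ') : ∀ h ∈ insert t P, Rch G (asc ρ) H μ s (μ' h) := by
  intro h hh
  have h1 : μ' h ∈ (insert t P).image μ' := Finset.mem_image_of_mem _ hh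
  rw [A.img] at h1
  rcases Finset.mem_insert.mp h1 with h2 | h2
  · rw [h2]; exact ReflTransGen.refl
  · obtain ⟨x, h3, h4⟩ := Finset.mem_image.mp h2
    rw [← h4]; exact A.frm x h3

theorem Aug.cases (A : Aug G ρ H μ s t P μ') {h : V} (hh : h ∈ insert t H) :
    h ∈ insert t P ∨ (h ∈ H ∧ h ∉ P ∧ μ' h = μ h) := by
  by_cases e : h ∈ insert t P
  · exact Or.inl e
  · simp only [Finset.mem_insert, not_or] at e
    have := (Finset.mem_insert.mp hh).resolve_left e.1
    exact Or.inr ⟨this, e.2, A.off h this e.2⟩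

theorem Aug.transfer (A : Aug G ρ H μ s t P μ') (hb : ∀ p h, asc ρ p h → b p h) {p q : V}
    (h : Rch G b (insert t H) μ' p q) :
    Rch G b H μ p q ∨ (To G gen H μ p t ∧ Rch G b H μ s q) := by
  induction h with
  | refl => exact Or.inl ReflTransGen.refl
  | tail _ h ih =>
    obtain ⟨x, h1, h2, h3, rfl⟩ := h
    rcases A.cases h1 with h4 | ⟨h4, _, h5⟩
    · refine Or.inr ⟨?_, (A.frm' x h4).weak subset_rfl hb⟩
      rcases ih with ih | ih
      · rcases Finset.mem_insert.mp h4 with rfl | h4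
        · exact ⟨_, ih.gen', h2⟩
        · exact ih.gen'.to (To.cons (A.sub h4) h2 trivial (A.to x h4).gen')
      · exact ih.1
    · rw [h5]
      rcases ih with ih | ih
      · exact Or.inl (ih.snoc h4 h2 h3)
      · exact Or.inr ⟨ih.1, ih.2.snoc h4 h2 h3⟩

theorem Aug.le (A : Aug G ρ H μ s t P μ') (I : Inv0 G ρ U H μ) (ht : t ∈ U) :
    ∀ h ∈ insert t P, ρ h ≤ ρ t := by
  intro h hh
  rcases Finset.mem_insert.mp hh with rfl | hh
  · exact le_rfl
  · exact (I.top h (A.sub hh) t ht (A.to h hh).gen').le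

theorem Aug.mem_range (A : Aug G ρ H μ s t P μ') {h : V} (hh : h ∈ insert t H) :
    μ' h = s ∨ ∃ x ∈ H, μ x = μ' h := by
  have h1 : μ' h ∈ (insert t H).image μ' := Finset.mem_image_of_mem _ hh
  rw [A.range] at h1
  exact (Finset.mem_insert.mp h1).imp id Finset.mem_image.mp

theorem Aug.low (A : Aug G ρ H μ s t P μ') (I : Inv0 G ρ U H μ) (ht : t ∈ U) :
    ∀ h ∈ insert t P, (h = t ∨ (ρ h < ρ t ∧ Low G ρ (ρ t) t h)) ∧
      ρ (μ' h) < ρ t ∧ Low G ρ (ρ t) t (μ' h) := by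
  have h2 : ∀ h ∈ insert t P, (h = t ∨ (ρ h < ρ t ∧ Low G ρ (ρ t) t h)) →
      ρ (μ' h) < ρ t ∧ Low G ρ (ρ t) t (μ' h) := by
    intro h hh e
    obtain ⟨h3, h4⟩ := A.adj h hh
    rcases e with rfl | e
    · exact ⟨h4, Low.base h3.symm⟩
    · exact ⟨by omega, Low.step e.2 e.1 h3.symm⟩
  have h1 := A.ind (fun h => h = t ∨ (ρ h < ρ t ∧ Low G ρ (ρ t) t h)) (Or.inl rfl)
    (fun h hh x hx e hQ => by
      have h3 := h2 x hx hQ
      rw [e] at h3
      exact Or.inr ⟨I.top h (A.sub hh) t ht (A.to h hh).gen',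
        Low.step h3.2 h3.1 (I.adj h (A.sub hh))⟩)
  intro h hh
  have h3 : h = t ∨ (ρ h < ρ t ∧ Low G ρ (ρ t) t h) :=
    (Finset.mem_insert.mp hh).imp id fun e => (h1 h e).resolve_left fun e' => A.tH (e' ▸ A.sub e)
  exact ⟨h3, h2 h hh h3⟩

theorem Aug.inv (A : Aug G ρ H μ s t P μ') (I : Inv0 G ρ U H μ) (hs : s ∈ U) (ht : t ∈ U)
    (hst : s ≠ t) (hU : U' ⊆ U) (hs' : s ∉ U') (ht' : t ∉ U')
    (H1 : ∀ h ∈ H, ¬ G.Adj s (μ h)) (H2 : ∀ c ∈ U', To G gen H μ s c → ρ t < ρ c) :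
    Inv0 G ρ U' (insert t H) μ' where
  hU := fun h hh e => by
    rcases Finset.mem_insert.mp hh with rfl | hh
    · exact ht' e
    · exact I.hU h hh (hU e)
  lU := fun h hh e => by
    rcases A.mem_range hh with h1 | ⟨x, h1, h2⟩
    · exact hs' (h1 ▸ e)
    · exact I.lU x h1 (h2 ▸ hU e)
  lH := fun h hh e => by
    rcases A.mem_range hh with h1 | ⟨x, h1, h2⟩
    · rw [h1] at e
      rcases Finset.mem_insert.mp e with h3 | h3
      · exact hst h3
      · exact I.hU s h3 hs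
    · rw [← h2] at e
      rcases Finset.mem_insert.mp e with h3 | h3
      · exact I.lU x h1 (h3 ▸ ht)
      · exact I.lH x h1 h3
  inj := A.inj
  adj := fun h hh => by
    rcases A.cases hh with h1 | ⟨h1, _, h2⟩
    · exact (A.adj h h1).1
    · rw [h2]; exact I.adj h h1
  lt := fun h hh => by
    rcases A.cases hh with h1 | ⟨h1, _, h2⟩
    · exact (A.adj h h1).2
    · rw [h2]; exact I.lt h h1
  top := fun h hh c hc ⟨q, h1, h2⟩ => by
    have h3 := A.transfer (b := gen) (fun _ _ _ => trivial) h1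
    rcases A.cases hh with h4 | ⟨h4, _, h5⟩
    · have h6 := A.le I ht h h4
      have h7 : ρ t < ρ c := by
        rcases h3 with h3 | h3
        · exact H2 c hc ⟨q, (A.frm' h h4).gen'.tr h3, h2⟩
        · exact H2 c hc ⟨q, h3.2, h2⟩
      omega
    · rw [h5] at h3
      rcases h3 with h3 | h3
      · exact I.top h h4 c (hU hc) ⟨q, h3, h2⟩
      · have h6 := I.top h h4 t ht h3.1
        have h7 := H2 c hc ⟨q, h3.2, h2⟩
        omega
  ind := fun h hh h' hh' e => by
    rcases A.mem_range hh with h1 | ⟨x, h1, h2⟩ <;> rcases A.mem_range hh' with h3 | ⟨x', h3, h4⟩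
    · rw [h1, h3] at e; exact e.ne rfl
    · rw [h1, ← h4] at e; exact H1 x' h3 e
    · rw [h3, ← h2] at e; exact H1 x h1 e.symm
    · rw [← h2, ← h4] at e; exact I.ind x h1 x' h3 e

theorem Aug.upper (A : Aug G ρ H μ s t P μ') (hs : s ∈ U) (hst : ρ s < ρ t) (hU : U' ⊆ U)
    (H2 : ∀ c ∈ U', To G gen H μ s c → ρ t < ρ c) {a c : V} (ha : a ∈ U') (hc : c ∈ U')
    (h : Up G ρ (insert t H) μ' a c) : ∃ a0 ∈ U, Up G ρ H μ a0 c := by
  obtain ⟨h1, q, h2, h3⟩ := h
  rcases A.transfer (fun _ _ h => h) h2 with h4 | h4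
  · exact ⟨a, hU ha, h1, q, h4, h3⟩
  · have := H2 c hc ⟨q, h4.2.gen', h3⟩
    exact ⟨s, hs, by omega, q, h4.2, h3⟩

theorem Aug.out (A : Aug G ρ H μ s t P μ') (ht : t ∈ U) (hU : U' ⊆ U) {h : V} (hh : h ∈ H)
    (e : h ∉ P → ∃ c ∈ U', To G gen (insert t H) μ' (μ' h) c) :
    ∃ c ∈ U, To G gen H μ (μ h) c := by
  by_cases h0 : h ∈ P
  · exact ⟨t, ht, (A.to h h0).gen'⟩
  · obtain ⟨c, hc, q, h1, h2⟩ := e h0
    rw [A.off h hh h0] at h1
    rcases A.transfer (b := gen) (fun _ _ _ => trivial) h1 with h3 | h3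
    · exact ⟨c, hU hc, q, h3, h2⟩
    · exact ⟨t, ht, h3.1⟩

end

/-- The invariant on the out-ports without a spare vertex. -/
structure Inv1 (G : SimpleGraph V) (ρ : V → ℕ) (U H : Finset V) (μ : V → V) (NS : Finset V) :
    Prop where
  nsU : ∀ l ∈ NS, l ∉ U
  ns : ∀ h ∈ H, ∀ l ∈ NS, Rch G (asc ρ) H μ (μ h) l → ∀ a ∈ U, ∀ c ∈ U, Up G ρ H μ a c →
    ρ h < ρ c

theorem Inv1.mono (I : Inv1 G ρ U H μ NS) (hU : U' ⊆ U) (hH : H' ⊆ H) :
    Inv1 G ρ U' H' μ NS where
  nsU := fun l hl e => I.nsU l hl (hU e)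
  ns := fun h hh l hl e a ha c hc e' =>
    I.ns h (hH hh) l hl (e.sub hH) a (hU ha) c (hU hc) (e'.sub hH)

theorem Inv1.not_rch (I : Inv1 G ρ U H μ NS) {x y : V} (hx : x ∈ U) (hy : y ∈ U)
    (h : Up G ρ H μ x y) : ∀ l ∈ NS, ¬ Rch G (asc ρ) H μ y l := by
  intro l hl e
  rcases e.first with rfl | ⟨z, h1, _, h3, h4⟩
  · exact I.nsU _ hl hy
  · have := I.ns z h1 l hl h4 x hx y hy h
    have h5 : ρ y < ρ z := h3
    omega

section

variable {s t : V} {P : Finset V}

theorem Aug.invA (A : Aug G ρ H μ s t P μ') (I : Inv0 G ρ U H μ) (J : Inv1 G ρ U H μ NS)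
    (hs : s ∈ U) (ht : t ∈ U) (hst : ρ s < ρ t) (hU : U' ⊆ U) (hs' : s ∉ U')
    (H2 : ∀ c ∈ U', To G gen H μ s c → ρ t < ρ c)
    (H3 : ∀ a ∈ U, ∀ c ∈ U', Up G ρ H μ a c → ρ t < ρ c) :
    Inv1 G ρ U' (insert t H) μ' (insert s NS) where
  nsU := fun l hl e => by
    rcases Finset.mem_insert.mp hl with rfl | hl
    · exact hs' e
    · exact J.nsU l hl (hU e)
  ns := fun h hh l hl e a ha c hc e' => by
    obtain ⟨a0, h1, h2⟩ := A.upper hs hst hU H2 ha hc e'
    have h3 := H3 a0 h1 c hc h2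
    rcases A.cases hh with h4 | ⟨h4, _, h5⟩
    · have := A.le I ht h h4
      omega
    · rw [h5] at e
      rcases A.transfer (fun _ _ h => h) e with h6 | h6
      · rcases Finset.mem_insert.mp hl with rfl | hl
        · rcases h6.last with h7 | ⟨x, h7, h8⟩
          · exact absurd (h7 ▸ hs) (I.lU h h4)
          · exact absurd (h8 ▸ hs) (I.lU x h7)
        · exact J.ns h h4 l hl h6 a0 h1 c (hU hc) h2
      · have := I.top h h4 t ht h6.1
        omega

theorem Aug.invB (A : Aug G ρ H μ s t P μ') (J : Inv1 G ρ U H μ NS)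
    (hs : s ∈ U) (hst : ρ s < ρ t) (hU : U' ⊆ U)
    (H2 : ∀ c ∈ U', To G gen H μ s c → ρ t < ρ c)
    (H3 : ∀ l ∈ NS, ¬ Rch G (asc ρ) H μ s l) :
    Inv1 G ρ U' (insert t H) μ' NS where
  nsU := fun l hl e => J.nsU l hl (hU e)
  ns := fun h hh l hl e a ha c hc e' => by
    obtain ⟨a0, h1, h2⟩ := A.upper hs hst hU H2 ha hc e'
    rcases A.transfer (fun _ _ h => h) e with h6 | h6
    · rcases A.cases hh with h4 | ⟨h4, _, h5⟩
      · exact absurd ((A.frm' h h4).tr h6) (H3 l hl)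
      · rw [h5] at h6
        exact J.ns h h4 l hl h6 a0 h1 c (hU hc) h2
    · exact absurd h6.2 (H3 l hl)

end

end Pool.Agent.Lib.MP_1d5e93_al
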