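import Pool.Agent.Lib.MP_b26ec7_al.Defs

set_option autoImplicit false

namespace Pool.Agent.Lib.MP_1d5e93_al

open MvPolynomial

universe u

/-- No induced cycle `C_m` with `m ≥ 4`. -/
def Chordal {n : ℕ} (G : SimpleGraph (Fin n)) : Prop :=
  ∀ m, 4 ≤ m → IsEmpty (SimpleGraph.cycleGraph m ↪g G)

/-- `M` is a set of pairwise disjoint edges of `G`. -/
def IsMat {n : ℕ} (G : SimpleGraph (Fin n)) (M : Finset (Sym2 (Fin n))) : Prop :=
  (∀ e ∈ M, e ∈ G.edgeSet) ∧ ∀ e ∈ M, ∀ e' ∈ M, ∀ v, v ∈ e → v ∈ e' → e = e'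

/-- `v` is covered by `M`. -/
def Cov {n : ℕ} (M : Finset (Sym2 (Fin n))) (v : Fin n) : Prop := ∃ e ∈ M, v ∈ e

/-- The matching number. -/
noncomputable def nu {n : ℕ} (G : SimpleGraph (Fin n)) : ℕ :=
  sSup {m | ∃ M, IsMat G M ∧ M.card = m}

/-- The `k`-th square-free power of the edge ideal. -/
noncomputable def sqPow (K : Type u) [Field K] {n : ℕ} (G : SimpleGraph (Fin n)) (k : ℕ) :
    Ideal (MvPolynomial (Fin n) K) :=
  Ideal.span {p | ∃ M, IsMat G M ∧ M.card = k ∧ p = ∏ e ∈ M, (e.map X).mul}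

/-- Generalized `k`-admissible matchings. -/
def Adm {n : ℕ} (G : SimpleGraph (Fin n)) (k : ℕ) (M : Finset (Sym2 (Fin n))) : Prop :=
  IsMat G M ∧ ∃ P : Finpartition M,
    (∀ a b, G.Adj a b → Cov M a → Cov M b → ∃ Q ∈ P.parts, Cov Q a ∧ Cov Q b) ∧
    (k ≤ M.card ∧ M.card + 1 ≤ P.parts.card + k) ∧
    ∀ Q ∈ P.parts, ∀ N, IsMat G N → (∀ v, Cov N v → Cov Q v) → N.card = Q.card →
      ∀ v, Cov Q v → Cov N v

/-- The `k`-admissible matching number. -/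
noncomputable def aim {n : ℕ} (G : SimpleGraph (Fin n)) (k : ℕ) : ℕ :=
  sSup {m | ∃ M, Adm G k M ∧ M.card = m}

end Pool.Agent.Lib.MP_1d5e93_al
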