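import Pool.Agent.Lib.MP_1d5e93_al.Str
import Pool.Agent.Lib.MP_b26ec7_al.Reg

set_option autoImplicit false
set_option linter.unusedSectionVars false

namespace Pool.Agent.Lib.MP_1d5e93_al

open Relation MP_b26ec7_al

universe u

variable {σ : Type} [LinearOrder σ] [Fintype σ] {K : Type u} [Field K]

/-- The squarefree multigraded piece of the Koszul complex of a face ring. -/
def Phi (X : Finset σ → Prop) (W : Finset σ) : Set (Finset σ) := {τ | τ ⊆ W ∧ X (W \ τ)}

variable (K) in
/-- The complex `X` on `U` has Leray number at most `r`. -/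
def Ler (X : Finset σ → Prop) (U : Finset σ) (r : ℤ) : Prop :=
  ∀ W ⊆ U, ∀ i : ℕ, r + i < W.card → Ex K (Phi X W) i

variable {X X' : Finset σ → Prop} {U : Finset σ} {r : ℤ}

theorem Ler.congr (h : Ler K X U r) (e : ∀ W ⊆ U, X' W ↔ X W) : Ler K X' U r := by
  intro W hW i hi
  have : Phi X' W = Phi X W := by
    ext τ
    exact and_congr_right fun _ => e _ (Finset.sdiff_subset.trans hW)
  rw [this]
  exact h W hW i hi

theorem ler_void (h : ∀ W ⊆ U, ¬ X W) : Ler K X U r :=
  fun _ hW i _ => ex_empty (fun _ hτ => h _ (Finset.sdiff_subset.trans hW) hτ.2) i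

theorem ler_full (h : ∀ W ⊆ U, X W) (hr : 0 ≤ r) : Ler K X U r := by
  intro W hW i hi
  obtain ⟨p, hp⟩ := Finset.card_pos.mp (show 0 < W.card by omega)
  refine ex_cone p (fun τ _ => ?_) i
  exact ⟨fun e => ⟨Finset.insert_subset hp e.1, h _ (Finset.sdiff_subset.trans hW)⟩,
    fun e => ⟨(Finset.subset_insert _ _).trans e.1, h _ (Finset.sdiff_subset.trans hW)⟩⟩

theorem cvx_Phi (hX : ∀ A B, A ⊆ B → X B → X A) (W : Finset σ) : Cvx (Phi X W) :=
  fun _ _ _ h1 h2 => ⟨(Finset.subset_insert _ _).trans h2.1,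
    hX _ _ (Finset.sdiff_subset_sdiff subset_rfl (Finset.subset_insert _ _)) h1.2⟩

theorem ler_step (hX : ∀ A B, A ⊆ B → X B → X A) (y : σ) (h1 : Ler K X (U.erase y) r)
    (h2 : Ler K (fun W => X (insert y W)) (U.erase y) (r - 1)) : Ler K X U r := by
  intro W hW i hi
  by_cases hy : y ∈ W
  swap
  · exact h1 W (fun v hv => Finset.mem_erase.mpr ⟨fun e => hy (e ▸ hv), hW hv⟩) i hi
  have hW' : W.erase y ⊆ U.erase y := Finset.erase_subset_erase _ hW
  have hc : ((W.erase y).card : ℤ) + 1 = W.card := by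
    exact_mod_cast Finset.card_erase_add_one hy
  have hs : SES (Phi (fun W => X (insert y W)) (W.erase y)) (Phi X W)
      {τ | τ ∈ Phi X W ∧ y ∈ τ} := by
    have key : ∀ τ, τ ∈ Phi (fun W => X (insert y W)) (W.erase y) ↔ τ ∈ Phi X W ∧ y ∉ τ := by
      intro τ
      have e : y ∉ τ → insert y (W.erase y \ τ) = W \ τ := by
        intro h
        ext v
        simp only [Finset.mem_insert, Finset.mem_sdiff, Finset.mem_erase]
        constructor
        · rintro (rfl | h3)
          · exact ⟨hy, h⟩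
          · exact ⟨h3.1.2, h3.2⟩
        · intro h3
          by_cases h4 : v = y
          · exact Or.inl h4
          · exact Or.inr ⟨⟨h4, h3.1⟩, h3.2⟩
      simp only [Phi, Set.mem_ofPred_eq, Finset.subset_erase]
      constructor
      · rintro ⟨⟨h3, h4⟩, h5⟩
        exact ⟨⟨h3, e h4 ▸ h5⟩, h4⟩
      · rintro ⟨⟨h3, h5⟩, h4⟩
        exact ⟨⟨h3, h4⟩, (e h4).symm ▸ h5⟩
    refine ⟨cvx_Phi hX W, fun τ => ?_, fun τ h3 h4 => ((key τ).mp h3).2 h4.2, fun τ v h3 h4 =>
      (key τ).mpr ⟨h3, fun e => ((key _).mp h4).2 (Finset.mem_insert_of_mem e)⟩⟩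
    rw [key]
    simp only [Set.mem_ofPred_eq]
    tauto
  have hsh : Shift y (Phi X (W.erase y)) {τ | τ ∈ Phi X W ∧ y ∈ τ} := by
    refine ⟨fun τ hτ e => Finset.notMem_erase y W (hτ.1 e), fun τ hτ => hτ.2, fun τ hτ => ?_⟩
    have e : W.erase y \ τ = W \ insert y τ := by
      ext v
      simp only [Finset.mem_insert, Finset.mem_sdiff, Finset.mem_erase]
      tauto
    simp only [Phi, Set.mem_ofPred_eq, Finset.subset_erase, e, Finset.insert_subset_iff,
      Finset.mem_insert_self]
    tauto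
  exact hs.mid (h2 _ hW' i (by omega)) (hsh.up fun j hj => h1 _ hW' j (by omega))

variable {G : SimpleGraph σ} {ρ : σ → ℕ}

theorem Big.mono {C A B : Finset σ} {j : ℕ} (h : A ⊆ B) (h' : Big G C j A) : Big G C j B :=
  let ⟨S, h1, h2⟩ := h'; ⟨S, h1.trans (Finset.union_subset_union subset_rfl h), h2⟩

theorem big_contract {H P W : Finset σ} {μ μ' : σ → σ} {s t : σ} (A : Aug G ρ H μ s t P μ')
    (k : ℕ) : Big G (Cv H μ) (H.card + (k + 1)) (insert s (insert t W)) ↔
      Big G (Cv (insert t H) μ') ((insert t H).card + k) W := by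
  have e : Cv H μ ∪ insert s (insert t W) = Cv (insert t H) μ' ∪ W := by
    rw [Cv, Cv, A.range]
    ext v
    simp only [Finset.mem_union, Finset.mem_insert]
    tauto
  rw [Finset.card_insert_of_notMem A.tH, show H.card + 1 + k = H.card + (k + 1) by omega]
  unfold Big
  rw [e]

theorem game (hp : PEO G ρ) (n : ℕ) : ∀ (U H : Finset σ) (μ : σ → σ) (NS : Finset σ) (k : ℕ)
    (r : ℤ), U.card ≤ n → Inv0 G ρ U H μ → Inv1 G ρ U H μ NS → Bd G ρ U H μ NS k r →
    Ler K (fun W => ¬ Big G (Cv H μ) (H.card + k) W) U r := by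
  classical
  induction n using Nat.strong_induction_on with
  | _ n ih =>
  intro U H μ NS k r hn I J B
  rcases k with _ | k
  · exact ler_void fun W _ e => e (big_zero I W)
  by_cases hex : ∃ c, c ∈ U ∧ ∃ a ∈ U, Up G ρ H μ a c
  swap
  · refine ler_full (fun W hW e => ?_) ?_
    · obtain ⟨a, ha, c, hc, h⟩ := up_of_big hp I hW e
      exact hex ⟨c, hc, a, ha, h⟩
    · have := B ∅ (fun _ => 0) ⟨by simp, ⟨id, by simp [IsPM]⟩, by simp, by simp, by simp, by simp⟩
      simp only [sz2, Finset.card_empty, Finset.empty_inter, Finset.image_empty] at this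
      push_cast at this
      omega
  obtain ⟨y, ⟨hy, x, hx, hxy⟩, ymin'⟩ := exists_minimalFor_of_wellFoundedLT
    (fun c => c ∈ U ∧ ∃ a ∈ U, Up G ρ H μ a c) ρ hex
  have ymin : ∀ a ∈ U, ∀ c ∈ U, Up G ρ H μ a c → ρ y ≤ ρ c := by
    intro a ha c hc h
    by_contra hlt
    have := ymin' (j := c) ⟨hc, a, ha, h⟩ (by omega)
    omega
  have hdown : ∀ (C : Finset σ) (j : ℕ) (A B : Finset σ), A ⊆ B → ¬ Big G C j B →
      ¬ Big G C j A := fun C j A B h1 h2 h3 => h2 (h3.mono h1)
  have hcard : ∀ U' : Finset σ, U' ⊆ U → y ∉ U' → U'.card < n := by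
    intro U' h1 h2
    have := Finset.card_lt_card (show U' ⊂ U from ⟨h1, fun e => h2 (e hy)⟩)
    omega
  refine ler_step (hdown _ _) y (ih _ (hcard _ (Finset.erase_subset _ _) (Finset.notMem_erase _ _))
    _ H μ NS _ r le_rfl (I.mono (Finset.erase_subset _ _) subset_rfl)
    (J.mono (Finset.erase_subset _ _) subset_rfl) (B.mono I (Finset.erase_subset _ _) subset_rfl)) ?_
  let T : ℕ → Finset σ := fun θ => U.filter fun v => v ≠ y ∧ ¬ (Nb G ρ H μ y v ∧ ρ v < θ)
  have hTU : ∀ θ, T θ ⊆ U := fun θ => Finset.filter_subset _ _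
  have hyT : ∀ θ, y ∉ T θ := fun θ e => (Finset.mem_filter.mp e).2.1 rfl
  have key : ∀ d θ : ℕ, (∀ v ∈ U, ρ v < θ + d) →
      Ler K (fun W => ¬ Big G (Cv H μ) (H.card + (k + 1)) (insert y W)) (T θ) (r - 1) := by
    intro d
    induction d with
    | zero =>
      intro θ hθ
      have hn : ∀ w ∈ T θ, ¬ Nb G ρ H μ y w := fun w hw e =>
        (Finset.mem_filter.mp hw).2.2 ⟨e, hθ w (hTU θ hw)⟩
      refine (ih _ (hcard _ (hTU θ) (hyT θ)) _ H μ NS _ _ le_rfl (I.mono (hTU θ) subset_rfl)
        (J.mono (hTU θ) subset_rfl) (bd_out hp I hx hy hxy ymin (hTU θ) (hyT θ) hn B)).congr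
        fun W hW => not_congr ⟨big_erase hp I (hW.trans (hTU θ)) hy fun w hw => hn w (hW hw),
          Big.mono (Finset.subset_insert _ _)⟩
    | succ d ihd =>
      intro θ hθ
      have hnext := ihd (θ + 1) fun v hv => by have := hθ v hv; omega
      by_cases hz : ∃ z ∈ U, Nb G ρ H μ y z ∧ ρ z = θ
      swap
      · have : T θ = T (θ + 1) := by
          refine Finset.filter_congr fun v hv => and_congr_right fun _ => not_congr
            (and_congr_right fun e => ⟨fun h => by omega, fun h => ?_⟩)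
          have : ρ v ≠ θ := fun e' => hz ⟨v, hv, e, e'⟩
          omega
        rw [this]
        exact hnext
      obtain ⟨z, hz, hyz, hθz⟩ := hz
      have hzT : z ∈ T θ := Finset.mem_filter.mpr ⟨hz, hyz.ne.symm, fun e => by omega⟩
      have hTe : (T θ).erase z = T (θ + 1) := by
        ext v
        simp only [T, Finset.mem_erase, Finset.mem_filter]
        constructor
        · rintro ⟨h1, h2, h3, h4⟩
          refine ⟨h2, h3, fun e => h4 ⟨e.1, ?_⟩⟩
          have : ρ v ≠ ρ z := fun e' => h1 (hp.inj e')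
          omega
        · rintro ⟨h2, h3, h4⟩
          exact ⟨fun e => h4 (by rw [e]; exact ⟨hyz, by omega⟩), h2, h3,
            fun e => h4 ⟨e.1, by omega⟩⟩
      refine ler_step (fun A B h => hdown _ _ _ _ (Finset.insert_subset_insert _ h)) z
        (hTe ▸ hnext) ?_
      rw [hTe, show r - 1 - 1 = r - 2 by ring]
      have hzT' : z ∉ T (θ + 1) := by rw [← hTe]; exact Finset.notMem_erase _ _
      have hsub : T (θ + 1) ⊆ insert y (T θ) := by
        rw [← hTe]; exact (Finset.erase_subset _ _).trans (Finset.subset_insert _ _)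
      have hU'' : insert y (T θ) ⊆ U := Finset.insert_subset hy (hTU θ)
      have hy'' : y ∈ insert y (T θ) := Finset.mem_insert_self _ _
      have hz'' : z ∈ insert y (T θ) := Finset.mem_insert_of_mem hzT
      have I' := I.mono hU'' subset_rfl
      have Ia := I.mono hU'' (alive_sub (G := G) (ρ := ρ) (U := insert y (T θ)) (μ := μ))
      have Ja := J.mono hU'' (alive_sub (G := G) (ρ := ρ) (U := insert y (T θ)) (μ := μ))
      have hH1 : ∀ s ∈ insert y (T θ), (∀ a ∈ insert y (T θ), ¬ Up G ρ H μ a s) →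
          ∀ h ∈ alive G ρ (insert y (T θ)) H μ, ¬ G.Adj s (μ h) := by
        intro s hs h0 h hh e
        obtain ⟨a, h1, h2⟩ := alive_rch hh
        have h3 := I.top h (alive_sub hh) s (hU'' hs) (To.of_adj e.symm)
        have h4 := I.lt h (alive_sub hh)
        exact h0 a h1 ⟨I.lt_of_asc h2 (by omega) (To.of_adj e.symm) (hU'' hs), _, h2, e.symm⟩
      have hbig : ∀ W ⊆ T (θ + 1), Big G (Cv H μ) (H.card + (k + 1)) (insert y (insert z W)) ↔
          Big G (Cv (alive G ρ (insert y (T θ)) H μ) μ)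
            ((alive G ρ (insert y (T θ)) H μ).card + (k + 1)) (insert y (insert z W)) :=
        fun W hW => big_alive hp I'
          (Finset.insert_subset hy'' (Finset.insert_subset hz'' (hW.trans hsub)))
      rcases hyz with hyz | hzy
      · obtain ⟨P, ν, A⟩ := Ia.aug hy'' hz'' (hyz.alive hy'')
        have hdel : ∀ a ∈ insert y (T θ), ¬ Up G ρ H μ a y := by
          intro a ha e
          have h1 := e.1
          have h2 := hyz.1
          rcases Finset.mem_insert.mp ha with rfl | ha
          · omega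
          · exact (Finset.mem_filter.mp ha).2.2 ⟨Or.inr e, by omega⟩
        have H2 : ∀ c ∈ T (θ + 1), To G gen (alive G ρ (insert y (T θ)) H μ) μ y c →
            ρ z < ρ c := by
          intro c hc e
          obtain ⟨h1, h2, h3⟩ := Finset.mem_filter.mp hc
          by_contra h4
          exact h3 ⟨I.conv hp hy h1 h2.symm (e.sub alive_sub), by omega⟩
        have H3 : ∀ l ∈ NS, ¬ Rch G (asc ρ) (alive G ρ (insert y (T θ)) H μ) μ y l :=
          fun l hl e => J.not_rch hx hy hxy l hl (e.sub alive_sub)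
        refine (ih _ (hcard _ (hTU _) (hyT _)) _ _ ν NS k _ le_rfl
          (A.inv Ia hy'' hz'' (Nb.ne (Or.inl hyz)) hsub (hyT _) hzT' (hH1 y hy'' hdel) H2)
          (A.invB Ja hy'' hyz.1 hsub H2 H3)
          (bd_B hp I hx hxy ymin hU'' hy'' hz'' hyz.1 hdel A hsub H2 H3 B)).congr
          fun W hW => not_congr ((hbig W hW).trans (big_contract A k))
      · obtain ⟨P, ν, A⟩ := Ia.aug hz'' hy'' (hzy.alive hz'')
        have hdel : ∀ a ∈ U, ¬ Up G ρ H μ a z := by
          intro a ha e
          have h1 := ymin a ha z hz e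
          have h2 := hzy.1
          omega
        have H3 : ∀ a ∈ U, ∀ c ∈ T (θ + 1), Up G ρ H μ a c → ρ y < ρ c := by
          intro a ha c hc e
          obtain ⟨h1, h2, _⟩ := Finset.mem_filter.mp hc
          have h3 := ymin a ha c h1 e
          have h4 : ρ c ≠ ρ y := fun e' => h2 (hp.inj e')
          omega
        have H2 : ∀ c ∈ T (θ + 1), To G gen (alive G ρ (insert y (T θ)) H μ) μ z c →
            ρ y < ρ c := by
          intro c hc e
          rcases I.conv hp hz (hTU _ hc) (fun e' => hzT' (e' ▸ hc)) (e.sub alive_sub) with h | h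
          · exact H3 z hz c hc h
          · exact absurd h (hdel c (hTU _ hc))
        refine (ih _ (hcard _ (hTU _) (hyT _)) _ _ ν (insert z NS) k _ le_rfl
          (A.inv Ia hz'' hy'' (Nb.ne (Or.inl hzy)) hsub hzT' (hyT _)
            (hH1 z hz'' fun a ha => hdel a (hU'' ha)) H2)
          (A.invA Ia Ja hz'' hy'' hzy.1 hsub hzT' H2
            fun a ha c hc e => H3 a (hU'' ha) c hc (e.sub alive_sub))
          (bd_A hp Ia hz'' hy'' (hzy.alive hz'') A
            (fun a ha c hc e => ymin a (hU'' ha) c (hU'' hc) (e.sub alive_sub)) hsub (hyT _) H2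
            (B.mono I hU'' alive_sub))).congr
          fun W hW => not_congr ((hbig W hW).trans ?_)
        rw [Finset.insert_comm]
        exact big_contract A k
  have h0 : T 0 = U.erase y := by
    ext v
    simp only [T, Finset.mem_erase, Finset.mem_filter]
    constructor
    · exact fun h => ⟨h.2.1, h.1⟩
    · exact fun h => ⟨h.2, h.1, fun e => by omega⟩
  rw [← h0]
  refine key (U.sup ρ + 1) 0 fun v hv => ?_
  have : ρ v ≤ U.sup ρ := Finset.le_sup hv
  omega

end Pool.Agent.Lib.MP_1d5e93_al
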