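import Pool.Agent.Lib.MP_1d5e93_al.Game

set_option autoImplicit false
set_option linter.unusedSectionVars false

namespace Pool.Agent.Lib.MP_1d5e93_al

open Relation MP_b26ec7_al

universe u

variable {σ : Type} [LinearOrder σ] [Fintype σ] {K : Type u} [Field K]

/-- Support of an exponent vector. -/
def spt (a : σ → ℤ) : Finset σ := Finset.univ.filter fun v => 0 < a v

/-- Monomials whose support is a face. -/
def StX (X : Finset σ → Prop) : Set (σ → ℤ) := {a | 0 ≤ a ∧ X (spt a)}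

/-- Monomials whose support is not a face. -/
def EX (X : Finset σ → Prop) : Set (σ → ℤ) := {a | 0 ≤ a ∧ ¬ X (spt a)}

variable {X : Finset σ → Prop}

theorem spt_mono {a b : σ → ℤ} (h : a ≤ b) : spt a ⊆ spt b := by
  intro v hv
  simp only [spt, Finset.mem_filter, Finset.mem_univ, true_and] at hv ⊢
  exact lt_of_lt_of_le hv (h v)

theorem fam_ind (W : Finset σ) : Fam (ind W) (StX X) = Phi X W := by
  ext τ
  simp only [Fam, StX, Phi, Set.mem_ofPred_eq]
  have h1 : 0 ≤ ind W - ind τ ↔ τ ⊆ W := by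
    constructor
    · intro h v hv
      have := h v
      by_contra e
      simp [ind, hv, e] at this
    · intro h v
      simp only [Pi.zero_apply, Pi.sub_apply, ind]
      by_cases e : v ∈ τ
      · simp [e, h e]
      · simp only [e, if_false]
        split_ifs <;> omega
  have h2 : spt (ind W - ind τ) = W \ τ := by
    ext v
    simp only [spt, Finset.mem_filter, Finset.mem_univ, true_and, Pi.sub_apply, ind,
      Finset.mem_sdiff]
    split_ifs <;> simp_all
  rw [h1, h2]

theorem rg_StX {r : ℤ} (h : Ler K X Finset.univ r) : Rg K (StX X) r := by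
  intro a i hi
  by_cases h1 : ∃ v, a v < 0
  · obtain ⟨v, hv⟩ := h1
    refine ex_empty (fun τ hτ => ?_) i
    have := hτ.1 v
    simp only [Pi.zero_apply, Pi.sub_apply, ind] at this
    split_ifs at this <;> omega
  by_cases h2 : ∃ v, 2 ≤ a v
  · obtain ⟨p, hp⟩ := h2
    refine ex_cone p (fun τ hτ => ?_) i
    simp only [Fam, StX, Set.mem_ofPred_eq]
    have e1 : spt (a - ind (insert p τ)) = spt (a - ind τ) := by
      ext v
      simp only [spt, Finset.mem_filter, Finset.mem_univ, true_and, Pi.sub_apply, ind,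
        Finset.mem_insert]
      by_cases e : v = p
      · subst e
        simp only [hτ, true_or, if_true, if_false]
        omega
      · simp [e]
    have e2 : 0 ≤ a - ind τ ↔ 0 ≤ a - ind (insert p τ) := by
      refine forall_congr' fun v => ?_
      simp only [Pi.zero_apply, Pi.sub_apply, ind, Finset.mem_insert]
      by_cases e : v = p
      · subst e
        simp only [hτ, true_or, if_true, if_false]
        omega
      · simp [e]
    rw [e1, e2]
  push Not at h1 h2
  have e : a = ind (spt a) := by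
    funext v
    have := h1 v
    have := h2 v
    simp only [ind, spt, Finset.mem_filter, Finset.mem_univ, true_and]
    split_ifs <;> omega
  rw [e, sz_ind] at hi
  rw [e, fam_ind]
  exact h _ (Finset.subset_univ _) i hi

theorem mses_X (hX : ∀ A B, A ⊆ B → X B → X A) : MSES (EX X) {c | 0 ≤ c} (StX X) where
  cvx := fun _ _ _ h1 _ h2 _ => le_trans h2 h1
  mem := fun a => by
    simp only [EX, StX, Set.mem_ofPred_eq]
    tauto
  disj := fun _ h1 h2 => h1.2 h2.2
  up := fun _ _ h1 h2 h3 => ⟨h3, fun e => h2.2 (hX _ _ (spt_mono h1) e)⟩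

theorem rg_EX (hX : ∀ A B, A ⊆ B → X B → X A) {r : ℤ} (hr : 0 ≤ r)
    (h : Ler K X Finset.univ (r - 1)) : Rg K (EX X) r :=
  (mses_X hX).sub (rg_StX h) (rg_nonneg.mono hr)

theorem ex_of_rg (hX : ∀ A B, A ⊆ B → X B → X A) {r : ℤ} (hr : 0 ≤ r)
    (h : Rg K (EX X) (r + 1)) (W : Finset σ) (i : ℕ) (hi : r + i < W.card) :
    Ex K (Phi X W) i := by
  rw [← fam_ind]
  exact (mses_X hX).quot (rg_nonneg.mono hr) h _ i (by rw [sz_ind]; exact hi)

/-- Subsets of `W` meeting every class. -/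
def Psi {ι : Type} (g : σ → ι) (W : Finset σ) : Set (Finset σ) :=
  {τ | τ ⊆ W ∧ ∀ w ∈ W, ∃ t ∈ τ, g t = g w}

theorem not_ex_Psi {ι : Type} [DecidableEq ι] (g : σ → ι) (n : ℕ) :
    ∀ W : Finset σ, W.card ≤ n → ¬ Ex K (Psi g W) (W.image g).card := by
  have base : ∀ W : Finset σ, (∀ u ∈ W, ∀ v ∈ W, g u = g v → u = v) →
      ¬ Ex K (Psi g W) (W.image g).card := by
    intro W hinj h
    rw [Finset.card_image_of_injOn fun u hu v hv => hinj u hu v hv] at h
    obtain ⟨b, hb, hd⟩ := h (fun τ => if τ = W then 1 else 0)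
      (fun τ h0 => by
        have : τ = W := by by_contra e; simp [e] at h0
        subst this
        exact ⟨⟨subset_rfl, fun w hw => ⟨w, hw, rfl⟩⟩, rfl⟩)
      (fun τ hτ => d1_eq_zero _ _ fun v hv => if_neg fun e => by
        obtain ⟨t, h1, h2⟩ := hτ.2 v (e ▸ Finset.mem_insert_self _ _)
        exact hv (hinj t (hτ.1 h1) v (e ▸ Finset.mem_insert_self _ _) h2 ▸ h1))
    have h1 := hd W ⟨subset_rfl, fun w hw => ⟨w, hw, rfl⟩⟩
    rw [d1_eq_zero b W (fun v _ => by
      by_contra h0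
      have h2 := hb _ h0
      have := Finset.card_le_card h2.1.1
      omega)] at h1
    simp at h1
  induction n with
  | zero =>
    intro W hW
    refine base W fun u hu => ?_
    have := Finset.card_pos.mpr ⟨u, hu⟩
    omega
  | succ n ih =>
    intro W hW
    by_cases hinj : ∀ u ∈ W, ∀ v ∈ W, g u = g v → u = v
    · exact base W hinj
    push Not at hinj
    obtain ⟨u, hu, v, hv, e, hne⟩ := hinj
    intro h
    have himg : (W.erase v).image g = W.image g := by
      refine Finset.Subset.antisymm (Finset.image_subset_image (Finset.erase_subset _ _))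
        fun i hi => ?_
      obtain ⟨w, h1, rfl⟩ := Finset.mem_image.mp hi
      by_cases h2 : w = v
      · exact Finset.mem_image.mpr ⟨u, Finset.mem_erase.mpr ⟨hne, hu⟩, by rw [h2, e]⟩
      · exact Finset.mem_image_of_mem _ (Finset.mem_erase.mpr ⟨h2, h1⟩)
    refine ih (W.erase v) (by rw [Finset.card_erase_of_mem hv]; omega) ?_
    rw [himg]
    have key : ∀ τ, τ ∈ Psi g (W.erase v) ↔ τ ∈ Psi g W ∧ v ∉ τ := by
      intro τ
      simp only [Psi, Set.mem_ofPred_eq, Finset.subset_erase]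
      constructor
      · rintro ⟨⟨h1, h2⟩, h3⟩
        refine ⟨⟨h1, fun w hw => ?_⟩, h2⟩
        by_cases h4 : w = v
        · rw [h4, ← e]; exact h3 u (Finset.mem_erase.mpr ⟨hne, hu⟩)
        · exact h3 w (Finset.mem_erase.mpr ⟨h4, hw⟩)
      · rintro ⟨⟨h1, h3⟩, h2⟩
        exact ⟨⟨h1, h2⟩, fun w hw => h3 w (Finset.mem_of_mem_erase hw)⟩
    have hs : SES (Psi g (W.erase v)) (Psi g W) {τ | τ ∈ Psi g W ∧ v ∈ τ} := by
      refine ⟨fun τ a b h1 h2 => ⟨(Finset.subset_insert _ _).trans h2.1, fun w hw => ?_⟩,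
        fun τ => ?_, fun τ h3 h4 => ((key τ).mp h3).2 h4.2, fun τ w h3 h4 =>
        (key τ).mpr ⟨h3, fun e => ((key _).mp h4).2 (Finset.mem_insert_of_mem e)⟩⟩
      · obtain ⟨t, h3, h4⟩ := h1.2 w hw
        exact ⟨t, Finset.mem_insert_of_mem h3, h4⟩
      · rw [key]
        simp only [Set.mem_ofPred_eq]
        tauto
    refine hs.sub (ex_cone u (fun τ _ => ?_) _) h
    simp only [Psi, Set.mem_ofPred_eq]
    constructor
    · rintro ⟨⟨h1, h2⟩, h3⟩
      refine ⟨⟨Finset.insert_subset hu h1, fun w hw => ?_⟩, Finset.mem_insert_of_mem h3⟩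
      obtain ⟨t, h4, h5⟩ := h2 w hw
      exact ⟨t, Finset.mem_insert_of_mem h4, h5⟩
    · rintro ⟨⟨h1, h2⟩, h3⟩
      have h6 : v ∈ τ := (Finset.mem_insert.mp h3).resolve_left hne.symm
      refine ⟨⟨(Finset.subset_insert _ _).trans h1, fun w hw => ?_⟩, h6⟩
      obtain ⟨t, h4, h5⟩ := h2 w hw
      rcases Finset.mem_insert.mp h4 with rfl | h4
      · exact ⟨v, h6, e ▸ h5⟩
      · exact ⟨t, h4, h5⟩

variable {G : SimpleGraph σ}

theorem IsPM.even {N : σ → σ} {S : Finset σ} (h : IsPM G N S) : Even S.card := by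
  have h1 : S = S.filter (fun v => v < N v) ∪ (S.filter fun v => v < N v).image N := by
    ext v
    simp only [Finset.mem_union, Finset.mem_filter, Finset.mem_image]
    constructor
    · intro hv
      obtain ⟨e1, e2, e3⟩ := h v hv
      rcases lt_or_gt_of_ne e3.ne with e4 | e4
      · exact Or.inl ⟨hv, e4⟩
      · exact Or.inr ⟨N v, ⟨e1, by rw [e2]; exact e4⟩, e2⟩
    · rintro (hv | ⟨w, hw, rfl⟩)
      · exact hv.1
      · exact (h w hw.1).1
  rw [h1, card_ori]
  · exact even_two_mul _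
  · intro p hp q hq e
    rw [← (h p (Finset.mem_filter.mp hp).1).2.1, e, (h q (Finset.mem_filter.mp hq).1).2.1]
  · intro p hp e
    have e1 := (Finset.mem_filter.mp e).2
    rw [(h p (Finset.mem_filter.mp hp).1).2.1] at e1
    exact lt_asymm e1 (Finset.mem_filter.mp hp).2

theorem IsPM.cls {ι : Type} [DecidableEq ι] {g : σ → ι} {N : σ → σ} {S : Finset σ}
    (h : IsPM G N S) (hg : ∀ u ∈ S, ∀ v ∈ S, G.Adj u v → g u = g v) (i : ι) :
    IsPM G N (S.filter fun v => g v = i) := by
  intro v hv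
  obtain ⟨h1, h2⟩ := Finset.mem_filter.mp hv
  obtain ⟨h3, h4, h5⟩ := h v h1
  exact ⟨Finset.mem_filter.mpr ⟨h3, (hg v h1 _ h3 h5).symm.trans h2⟩, h4, h5⟩

theorem lower {ι : Type} [DecidableEq ι] {g : σ → ι} {W : Finset σ} (hW : PM G W)
    (hg : ∀ u ∈ W, ∀ v ∈ W, G.Adj u v → g u = g v) {k : ℕ}
    (hk : W.card + 2 = 2 * k + 2 * (W.image g).card) :
    ¬ Ex K (Phi (fun A => ¬ Big G ∅ k A) W) (W.image g).card := by
  intro h
  obtain ⟨N, hN⟩ := hW
  have hsub : ∀ τ ∈ Psi g W, τ ∈ Phi (fun A => ¬ Big G ∅ k A) W := by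
    rintro τ hτ
    refine ⟨hτ.1, ?_⟩
    rintro ⟨S, h1, ⟨N', h2⟩, h3⟩
    rw [Finset.empty_union] at h1
    have hSW : S ⊆ W := h1.trans Finset.sdiff_subset
    have e1 := Finset.card_eq_sum_card_fiberwise (f := g) (s := W) (t := W.image g)
      fun v hv => Finset.mem_image_of_mem _ hv
    have e2 := Finset.card_eq_sum_card_fiberwise (f := g) (s := S) (t := W.image g)
      fun v hv => Finset.mem_image_of_mem _ (hSW hv)
    have e3 : ∑ i ∈ W.image g, ((S.filter fun v => g v = i).card + 2) ≤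
        ∑ i ∈ W.image g, (W.filter fun v => g v = i).card := by
      refine Finset.sum_le_sum fun i hi => ?_
      obtain ⟨w, hw, rfl⟩ := Finset.mem_image.mp hi
      obtain ⟨t, ht, e⟩ := hτ.2 w hw
      have e4 := (hN.cls hg (g w)).even
      have e5 := (h2.cls (fun u hu v hv => hg u (hSW hu) v (hSW hv)) (g w)).even
      have e6 := Finset.card_lt_card (show (S.filter fun v => g v = g w) ⊂
          (W.filter fun v => g v = g w) from ⟨Finset.filter_subset_filter _ hSW, fun e' =>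
        (Finset.mem_sdiff.mp (h1 (Finset.mem_filter.mp
          (e' (Finset.mem_filter.mpr ⟨hτ.1 ht, e⟩))).1)).2 ht⟩)
      obtain ⟨a, ha⟩ := e4
      obtain ⟨b, hb⟩ := e5
      omega
    rw [Finset.sum_add_distrib, ← e1, ← e2, Finset.sum_const, smul_eq_mul] at e3
    omega
  have hs : SES {τ | τ ∈ Phi (fun A => ¬ Big G ∅ k A) W ∧ τ ∉ Psi g W}
      (Phi (fun A => ¬ Big G ∅ k A) W) (Psi g W) := by
    refine ⟨cvx_Phi (fun A B h1 h2 h3 => h2 (h3.mono h1)) W, fun τ => ?_,
      fun τ h1 h2 => h1.2 h2, fun τ v h1 h2 => ⟨h1, fun e => h2.2 ⟨h2.1.1, fun w hw => ?_⟩⟩⟩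
    · have := hsub τ
      simp only [Set.mem_ofPred_eq]
      tauto
    · obtain ⟨t, h3, h4⟩ := e.2 w hw
      exact ⟨t, Finset.mem_insert_of_mem h3, h4⟩
  refine not_ex_Psi (K := K) g _ W le_rfl (hs.quot h fun j hj c hc _ => ⟨0,
    fun τ h0 => absurd rfl h0, fun τ _ => ?_⟩)
  rw [d1_eq_zero _ τ (fun _ _ => rfl)]
  by_contra h0
  obtain ⟨⟨⟨h1, h2⟩, _⟩, h3⟩ := hc τ (fun e => h0 e.symm)
  refine h2 ⟨W \ (τ ∪ τ.image N), ?_, ⟨N, hN.sdiff fun v hv e => ?_⟩, ?_⟩
  · rw [Finset.empty_union]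
    exact Finset.sdiff_subset_sdiff subset_rfl Finset.subset_union_left
  · rcases Finset.mem_union.mp e with h4 | h4
    · exact Finset.mem_union_right _ (Finset.mem_image_of_mem _ h4)
    · obtain ⟨t, h5, rfl⟩ := Finset.mem_image.mp h4
      rw [(hN t (h1 h5)).2.1]
      exact Finset.mem_union_left _ h5
  · have e1 := Finset.le_card_sdiff (τ ∪ τ.image N) W
    have e2 := Finset.card_union_le τ (τ.image N)
    have e3 : (τ.image N).card ≤ _ := Finset.card_image_le
    omega

end Pool.Agent.Lib.MP_1d5e93_al
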