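import Pool.Agent.Lib.MP_1d5e93_al.Lower
import Pool.Agent.Lib.MP_b26ec7_al.Main

set_option autoImplicit false
set_option linter.unusedSectionVars false

namespace Pool.Agent.Lib.MP_1d5e93_al

open MvPolynomial MP_b26ec7_al

universe u

variable {n : ℕ} {G : SimpleGraph (Fin n)} {K : Type u} [Field K]

/-- The vertex set of a set of edges. -/
def vs (M : Finset (Sym2 (Fin n))) : Finset (Fin n) := M.biUnion Sym2.toFinset

theorem mem_vs {M : Finset (Sym2 (Fin n))} {v : Fin n} : v ∈ vs M ↔ Cov M v := by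
  simp [vs, Cov]

theorem IsMat.sub {M N : Finset (Sym2 (Fin n))} (h : IsMat G M) (hN : N ⊆ M) : IsMat G N :=
  ⟨fun e he => h.1 e (hN he), fun e he e' he' => h.2 e (hN he) e' (hN he')⟩

theorem IsMat.disj {M : Finset (Sym2 (Fin n))} (h : IsMat G M) :
    (M : Set (Sym2 (Fin n))).PairwiseDisjoint Sym2.toFinset := by
  intro e he e' he' hne
  refine Finset.disjoint_left.mpr fun v h1 h2 => hne ?_
  exact h.2 e he e' he' v (Sym2.mem_toFinset.mp h1) (Sym2.mem_toFinset.mp h2)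

theorem IsMat.card {M : Finset (Sym2 (Fin n))} (h : IsMat G M) : (vs M).card = 2 * M.card := by
  rw [vs, Finset.card_biUnion h.disj, Finset.sum_congr rfl fun e he =>
    Sym2.card_toFinset_of_not_isDiag e (G.not_isDiag_of_mem_edgeSet (h.1 e he))]
  simp [mul_comm]

theorem IsMat.pm {M : Finset (Sym2 (Fin n))} (h : IsMat G M) : PM G (vs M) := by
  classical
  let N : Fin n → Fin n := fun v =>
    if e : Cov M v then Sym2.Mem.other e.choose_spec.2 else v
  have hN : ∀ e ∈ M, ∀ v ∈ e, s(v, N v) = e := by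
    intro e he v hv
    have hc : Cov M v := ⟨e, he, hv⟩
    simp only [N, dif_pos hc]
    rw [Sym2.other_spec]
    exact h.2 _ hc.choose_spec.1 e he v hc.choose_spec.2 hv
  refine ⟨N, fun v hv => ?_⟩
  obtain ⟨e, he, h1⟩ := mem_vs.mp hv
  have h2 := hN e he v h1
  have h3 : N v ∈ e := by rw [← h2]; exact Sym2.mem_mk_right _ _
  have h4 : G.Adj v (N v) := by
    have := h.1 e he
    rwa [← h2] at this
  refine ⟨mem_vs.mpr ⟨e, he, h3⟩, ?_, h4⟩
  rcases Sym2.eq_iff.mp ((hN e he _ h3).trans h2.symm) with h5 | h5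
  · exact absurd h5.1.symm h4.ne
  · exact h5.2

theorem PM.mat {S : Finset (Fin n)} (h : PM G S) : ∃ M, IsMat G M ∧ vs M = S := by
  obtain ⟨N, hN⟩ := h
  have key : ∀ u ∈ S, ∀ v ∈ s(u, N u), v ∈ S ∧ s(u, N u) = s(v, N v) := by
    intro u hu v hv
    obtain ⟨h1, h2, _⟩ := hN u hu
    rcases Sym2.mem_iff.mp hv with rfl | rfl
    · exact ⟨hu, rfl⟩
    · exact ⟨h1, by rw [h2, Sym2.eq_swap]⟩
  refine ⟨S.image fun v => s(v, N v), ⟨fun e he => ?_, fun e he e' he' v h1 h2 => ?_⟩, ?_⟩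
  · obtain ⟨v, hv, rfl⟩ := Finset.mem_image.mp he
    exact (hN v hv).2.2
  · obtain ⟨u, hu, rfl⟩ := Finset.mem_image.mp he
    obtain ⟨u', hu', rfl⟩ := Finset.mem_image.mp he'
    exact (key u hu v h1).2.trans (key u' hu' v h2).2.symm
  · ext v
    rw [mem_vs]
    constructor
    · rintro ⟨e, he, h1⟩
      obtain ⟨u, hu, rfl⟩ := Finset.mem_image.mp he
      exact (key u hu v h1).1
    · exact fun hv => ⟨_, Finset.mem_image_of_mem _ hv, Sym2.mem_mk_left _ _⟩

theorem big_iff {k : ℕ} {A : Finset (Fin n)} :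
    Big G ∅ k A ↔ ∃ M, IsMat G M ∧ M.card = k ∧ vs M ⊆ A := by
  constructor
  · rintro ⟨S, h1, h2, h3⟩
    obtain ⟨M, h4, rfl⟩ := h2.mat
    rw [h4.card] at h3
    obtain ⟨N, h5, h6⟩ := Finset.exists_subset_card_eq (show k ≤ M.card by omega)
    rw [Finset.empty_union] at h1
    exact ⟨N, h4.sub h5, h6, (Finset.biUnion_subset_biUnion_of_subset_left _ h5).trans h1⟩
  · rintro ⟨M, h1, h2, h3⟩
    exact ⟨vs M, by rwa [Finset.empty_union], h1.pm, by rw [h1.card, h2]⟩

theorem IsMat.prod {M : Finset (Sym2 (Fin n))} (h : IsMat G M) :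
    ∏ e ∈ M, (e.map (X : Fin n → MvPolynomial (Fin n) K)).mul =
      monomial (∑ v ∈ vs M, Finsupp.single v 1) 1 := by
  rw [monomial_sum_one, vs, Finset.prod_biUnion h.disj]
  refine Finset.prod_congr rfl fun e he => ?_
  have h1 := h.1 e he
  induction e using Sym2.ind with
  | _ a b =>
    rw [Sym2.map_mk, Sym2.mul_mk, Sym2.toFinset_mk_eq, Finset.prod_pair (G.ne_of_adj h1)]
    rfl

theorem mem_sqPow (k : ℕ) (p : MvPolynomial (Fin n) K) :
    p ∈ sqPow K G k ↔ ∀ m, coeff m p ≠ 0 → tz m ∈ EX fun A => ¬ Big G ∅ k A := by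
  have e : sqPow K G k = Ideal.span ((fun s => monomial s (1 : K)) ''
      {s | ∃ M, IsMat G M ∧ M.card = k ∧ s = ∑ v ∈ vs M, Finsupp.single v 1}) := by
    unfold sqPow
    congr 1
    ext q
    simp only [Set.mem_ofPred_eq, Set.mem_image]
    constructor
    · rintro ⟨M, h1, h2, rfl⟩
      exact ⟨_, ⟨M, h1, h2, rfl⟩, h1.prod.symm⟩
    · rintro ⟨_, ⟨M, h1, h2, rfl⟩, rfl⟩
      exact ⟨M, h1, h2, h1.prod.symm⟩
  have key : ∀ (S : Finset (Fin n)) (m : Fin n →₀ ℕ),
      ∑ v ∈ S, Finsupp.single v 1 ≤ m ↔ S ⊆ spt (tz m) := by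
    intro S m
    have e : ∀ w, (∑ v ∈ S, Finsupp.single v 1 : Fin n →₀ ℕ) w = if w ∈ S then 1 else 0 := by
      intro w
      simp [Finsupp.finsetSum_apply, Finsupp.single_apply]
    constructor
    · intro h v hv
      have := h v
      rw [e, if_pos hv] at this
      simp only [spt, tz, Finset.mem_filter, Finset.mem_univ, true_and]
      omega
    · intro h v
      rw [e]
      split_ifs with hv
      · have := h hv
        simp only [spt, tz, Finset.mem_filter, Finset.mem_univ, true_and] at this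
        omega
      · exact Nat.zero_le _
  rw [e, mem_ideal_span_monomial_image]
  refine forall_congr' fun m => ?_
  rw [mem_support_iff]
  refine imp_congr_right fun _ => ⟨?_, ?_⟩
  · rintro ⟨_, ⟨M, h1, h2, rfl⟩, h3⟩
    exact ⟨tz_nonneg m, not_not.mpr (big_iff.mpr ⟨M, h1, h2, (key _ _).mp h3⟩)⟩
  · rintro ⟨_, h⟩
    obtain ⟨M, h1, h2, h3⟩ := big_iff.mp (not_not.mp h)
    exact ⟨_, ⟨M, h1, h2, rfl⟩, (key _ _).mpr h3⟩

theorem cond3 {M Q : Finset (Sym2 (Fin n))} (h : IsMat G M) (hQ : Q ⊆ M)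
    (N : Finset (Sym2 (Fin n))) (h1 : IsMat G N) (h2 : ∀ v, Cov N v → Cov Q v)
    (h3 : N.card = Q.card) (v : Fin n) (hv : Cov Q v) : Cov N v := by
  have : vs N = vs Q := Finset.eq_of_subset_of_card_le
    (fun v hv => mem_vs.mpr (h2 v (mem_vs.mp hv))) (by rw [h1.card, (h.sub hQ).card, h3])
  rw [← mem_vs, this, mem_vs]
  exact hv

theorem bdd_card (p : Finset (Sym2 (Fin n)) → Prop) : BddAbove {m | ∃ M, p M ∧ M.card = m} :=
  ⟨Fintype.card (Sym2 (Fin n)), fun _ ⟨M, _, h⟩ => h ▸ M.card_le_univ⟩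

theorem exists_adm {k : ℕ} (h1 : 1 ≤ k) (h2 : k ≤ nu G) : ∃ M, Adm G k M ∧ M.card = k := by
  obtain ⟨M0, h3, h4⟩ : nu G ∈ {m | ∃ M, IsMat G M ∧ M.card = m} :=
    Nat.sSup_mem ⟨0, ∅, ⟨by simp, by simp⟩, rfl⟩ (bdd_card _)
  obtain ⟨M, h5, h6⟩ := Finset.exists_subset_card_eq (show k ≤ M0.card by omega)
  have h7 : M ≠ ⊥ := (Finset.card_pos.mp (by omega)).ne_empty
  refine ⟨M, ⟨h3.sub h5, Finpartition.indiscrete h7, fun a b _ ha hb => ⟨M, by simp, ha, hb⟩,
    ⟨h6.ge, by simp [h6, add_comm]⟩, fun Q hQ => ?_⟩, h6⟩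
  exact cond3 (h3.sub h5) ((Finpartition.indiscrete h7).le hQ)

theorem root_bd {ρ : Fin n → ℕ} {k : ℕ} (h1 : 1 ≤ k) (h2 : k ≤ nu G) :
    Bd G ρ Finset.univ ∅ id ∅ k (aim G k + k - 1) := by
  classical
  intro S f T h
  obtain ⟨M, h3, rfl⟩ := T.pm.mat
  simp only [sz2, Finset.image_empty, Finset.inter_empty, Finset.card_empty, h3.card] at h ⊢
  have key : M.card ≤ aim G k := by
    by_cases hk : k ≤ M.card
    swap
    · have : k ≤ aim G k := le_csSup (bdd_card _) (exists_adm h1 h2)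
      omega
    let lab : Sym2 (Fin n) → ℕ := fun e => f e.out.1
    have hlab : ∀ e ∈ M, ∀ v ∈ e, lab e = f v := by
      intro e he v hv
      have h4 := Sym2.out_fst_mem e
      have h5 := h3.1 e he
      have h6 : ∀ w ∈ e, w ∈ vs M := fun w hw => mem_vs.mpr ⟨e, he, hw⟩
      show f e.out.1 = f v
      generalize e.out.1 = w at h4
      induction e using Sym2.ind with
      | _ a b =>
        have h7 := T.lab a (h6 a (Sym2.mem_mk_left _ _)) b (h6 b (Sym2.mem_mk_right _ _)) h5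
        rcases Sym2.mem_iff.mp hv with rfl | rfl <;> rcases Sym2.mem_iff.mp h4 with rfl | rfl
        · rfl
        · exact h7.symm
        · exact h7
        · rfl
    let P := Finpartition.ofSetSetoid (Setoid.ker lab) M
    have hP : ∀ e ∈ M, (M.filter fun b => lab b = lab e) ∈ P.parts := by
      intro e he
      refine Finset.mem_image.mpr ⟨e, he, Finset.filter_congr fun b _ => ?_⟩
      exact eq_comm
    refine le_csSup (bdd_card _) ⟨M, ⟨h3, P, fun a b hab ha hb => ?_, ⟨hk, ?_⟩,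
      fun Q hQ => cond3 h3 (P.le hQ)⟩, rfl⟩
    · have h4 := T.lab a (mem_vs.mpr ha) b (mem_vs.mpr hb) hab
      obtain ⟨e, he, h5⟩ := ha
      obtain ⟨e', he', h6⟩ := hb
      refine ⟨_, hP e he, ⟨e, Finset.mem_filter.mpr ⟨he, rfl⟩, h5⟩,
        ⟨e', Finset.mem_filter.mpr ⟨he', ?_⟩, h6⟩⟩
      rw [hlab e he a h5, hlab e' he' b h6, h4]
    · have h4 := Finset.card_le_card_of_injOn (s := (vs M).image f) (t := P.parts)
        (fun i => M.filter fun b => lab b = i) (fun i hi => by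
          obtain ⟨v, hv, rfl⟩ := Finset.mem_image.mp hi
          obtain ⟨e, he, h5⟩ := mem_vs.mp hv
          rw [← hlab e he v h5]
          exact hP e he) (fun i hi j _ hij => by
          obtain ⟨v, hv, rfl⟩ := Finset.mem_image.mp hi
          obtain ⟨e, he, h5⟩ := mem_vs.mp hv
          have h6 : e ∈ M.filter fun b => lab b = f v :=
            Finset.mem_filter.mpr ⟨he, hlab e he v h5⟩
          have h7 : (M.filter fun b => lab b = f v) = M.filter fun b => lab b = j := hij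
          rw [h7] at h6
          exact (hlab e he v h5).symm.trans (Finset.mem_filter.mp h6).2)
      push_cast at h
      omega
  push_cast
  omega

theorem upper (hG : Chordal G) {k : ℕ} (h1 : 1 ≤ k) (h2 : k ≤ nu G) :
    Rg K (EX fun A => ¬ Big G ∅ k A) (aim G k + k) := by
  obtain ⟨ρ, hp⟩ := exists_peo hG
  refine rg_EX (fun A B h3 h4 h5 => h4 (h5.mono h3)) (by omega) ?_
  have := game (K := K) hp _ Finset.univ ∅ id ∅ k _ le_rfl
    ⟨by simp, by simp, by simp, by simp, by simp, by simp, by simp, by simp⟩ ⟨by simp, by simp⟩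
    (root_bd h1 h2)
  simpa [Cv] using this

theorem not_rg {k : ℕ} (h1 : 1 ≤ k) (h2 : k ≤ nu G) :
    ¬ Rg K (EX fun A => ¬ Big G ∅ k A) (aim G k + k - 1) := by
  classical
  obtain ⟨M, ⟨h3, P, h4, ⟨h5, h6⟩, _⟩, h7⟩ : aim G k ∈ {m | ∃ M, Adm G k M ∧ M.card = m} :=
    Nat.sSup_mem ⟨k, exists_adm h1 h2⟩ (bdd_card _)
  obtain ⟨Q, h8, h9⟩ := Finset.exists_subset_card_eq
    (show M.card + 1 - k ≤ P.parts.card by omega)
  obtain ⟨q0, hq0⟩ := Finset.card_pos.mp (show 0 < Q.card by omega)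
  let ed : Fin n → Finset (Sym2 (Fin n)) := fun v =>
    if e : Cov M v then P.part e.choose else ∅
  have hed : ∀ q ∈ P.parts, ∀ v, Cov q v → ed v = q := by
    rintro q hq v ⟨e, he, hv⟩
    have hc : Cov M v := ⟨e, P.le hq he, hv⟩
    simp only [ed, dif_pos hc]
    rw [h3.2 _ hc.choose_spec.1 e (P.le hq he) v hc.choose_spec.2 hv]
    exact P.part_eq_of_mem hq he
  let g : Fin n → Finset (Sym2 (Fin n)) := fun v => if ed v ∈ Q then ed v else q0
  have himg : (vs M).image g = Q := by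
    refine Finset.Subset.antisymm (fun q hq => ?_) fun q hq => ?_
    · obtain ⟨v, _, rfl⟩ := Finset.mem_image.mp hq
      simp only [g]
      split_ifs with e
      · exact e
      · exact hq0
    · obtain ⟨e, he⟩ := P.nonempty_of_mem_parts (h8 hq)
      have h10 := hed q (h8 hq) _ ⟨e, he, Sym2.out_fst_mem e⟩
      refine Finset.mem_image.mpr ⟨_, mem_vs.mpr ⟨e, P.le (h8 hq) he, Sym2.out_fst_mem e⟩, ?_⟩
      simp only [g, h10, if_pos hq]
  intro h
  refine lower (K := K) (g := g) (k := k) h3.pm (fun u hu v hv e => ?_) ?_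
    (ex_of_rg (r := aim G k + k - 2) (fun A B h3 h4 h5 => h4 (h5.mono h3)) (by omega)
      (by rw [show (aim G k : ℤ) + k - 2 + 1 = aim G k + k - 1 by ring]; exact h) _ _ ?_)
  · obtain ⟨q, hq, e1, e2⟩ := h4 u v e (mem_vs.mp hu) (mem_vs.mp hv)
    simp only [g, hed q hq u e1, hed q hq v e2]
  · rw [himg, h3.card]; omega
  · rw [himg, h3.card]; omega

theorem main (hG : Chordal G) {k : ℕ} (h1 : 1 ≤ k) (h2 : k ≤ nu G) :
    reg (sqPow K G k) = aim G k + k := by
  have hup : ∀ a b, a ≤ b → a ∈ EX (fun A => ¬ Big G ∅ k A) → b ∈ EX fun A => ¬ Big G ∅ k A :=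
    fun a b hab ha => ⟨le_trans ha.1 hab, fun e => ha.2 fun e' => e (e'.mono (spt_mono hab))⟩
  have hnn : ∀ a ∈ EX (fun A => ¬ Big G ∅ k A), 0 ≤ a := fun a ha => ha.1
  have hle : ∀ (F : MinRes (sqPow K G k)) t b, (F.deg t b : ℤ) ≤ aim G k + k + t := by
    intro F
    refine F.deg_of_kv fun i j hj => ?_
    refine (kv_iff_kv1 (mem_sqPow k) (fun _ => Iff.rfl) i _).mpr ?_
    exact kv1_of_ex hup hnn fun a ha => upper hG h1 h2 a i (by omega)
  obtain ⟨F⟩ := exists_minRes (sqPow K G k) _ (mem_sqPow k)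
  obtain ⟨t, b, hb⟩ : ∃ t b, ¬ (F.deg t b : ℤ) ≤ aim G k + k - 1 + t := by
    by_contra hn
    push Not at hn
    refine not_rg (K := K) h1 h2 fun a i hi => ex_of_kv1 hup hnn ?_
    exact (kv_iff_kv1 (mem_sqPow k) (fun _ => Iff.rfl) i _).mp (F.kv_of_deg hn i _ hi)
  refine IsGreatest.csSup_eq ⟨⟨F, t, b, ?_⟩, ?_⟩
  · have := hle F t b
    omega
  · rintro r ⟨F', i, c, rfl⟩
    have := hle F' i c
    omega

end Pool.Agent.Lib.MP_1d5e93_al
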