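import Pool.Agent.Lib.MP_1d5e93_al.Chain

set_option autoImplicit false
set_option linter.unusedSectionVars false

namespace Pool.Agent.Lib.MP_1d5e93_al

open Relation

variable {V : Type} [DecidableEq V] {G : SimpleGraph V} {ρ : V → ℕ}

/-- `N` is a perfect matching of `S`. -/
def IsPM (G : SimpleGraph V) (N : V → V) (S : Finset V) : Prop :=
  ∀ v ∈ S, N v ∈ S ∧ N (N v) = v ∧ G.Adj v (N v)

/-- `S` has a perfect matching. -/
def PM (G : SimpleGraph V) (S : Finset V) : Prop := ∃ N, IsPM G N S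

/-- `C ∪ W` contains a matching of size `j`. -/
def Big (G : SimpleGraph V) (C : Finset V) (j : ℕ) (W : Finset V) : Prop :=
  ∃ S ⊆ C ∪ W, PM G S ∧ 2 * j ≤ S.card

/-- The contracted vertices. -/
def Cv (H : Finset V) (μ : V → V) : Finset V := H ∪ H.image μ

variable {U H W : Finset V} {μ : V → V}

theorem mem_Cv {v : V} : v ∈ Cv H μ ↔ v ∈ H ∨ ∃ h ∈ H, μ h = v := by
  simp [Cv]

theorem IsPM.sdiff {N : V → V} {S T : Finset V} (h : IsPM G N S)
    (hT : ∀ v ∈ S, v ∈ T → N v ∈ T) : IsPM G N (S \ T) := by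
  intro v hv
  obtain ⟨h1, h2⟩ := Finset.mem_sdiff.mp hv
  obtain ⟨h3, h4, h5⟩ := h v h1
  exact ⟨Finset.mem_sdiff.mpr ⟨h3, fun e => h2 (h4 ▸ hT _ h3 e)⟩, h4, h5⟩

theorem IsPM.union {N N' : V → V} {S T : Finset V} (h : IsPM G N S) (h' : IsPM G N' T)
    (hd : ∀ v ∈ S, v ∉ T) : IsPM G (fun v => if v ∈ T then N' v else N v) (S ∪ T) := by
  intro v hv
  by_cases e : v ∈ T
  · obtain ⟨h3, h4, h5⟩ := h' v e
    simp only [if_pos e, if_pos h3]
    exact ⟨Finset.mem_union_right _ h3, h4, h5⟩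
  · obtain ⟨h3, h4, h5⟩ := h v ((Finset.mem_union.mp hv).resolve_right e)
    simp only [if_neg e, if_neg (hd _ h3)]
    exact ⟨Finset.mem_union_left _ h3, h4, h5⟩

theorem PM.union {S T : Finset V} (h : PM G S) (h' : PM G T) (hd : ∀ v ∈ S, v ∉ T) :
    PM G (S ∪ T) :=
  let ⟨_, h1⟩ := h; let ⟨_, h2⟩ := h'; ⟨_, h1.union h2 hd⟩

theorem exists_pm_ori {L : Finset V} {φ : V → V} (hinj : ∀ p ∈ L, ∀ q ∈ L, φ p = φ q → p = q)
    (h : ∀ p ∈ L, G.Adj p (φ p) ∧ φ p ∉ L) :
    ∃ N, IsPM G N (L ∪ L.image φ) ∧ ∀ p ∈ L, N p = φ p := by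
  classical
  let ψ : V → V := fun v => if e : ∃ p ∈ L, φ p = v then e.choose else v
  have hψ : ∀ p ∈ L, ψ (φ p) = p := by
    intro p hp
    have e : ∃ q ∈ L, φ q = φ p := ⟨p, hp, rfl⟩
    simp only [ψ, dif_pos e]
    exact hinj _ e.choose_spec.1 _ hp e.choose_spec.2
  refine ⟨fun v => if v ∈ L then φ v else ψ v, fun v hv => ?_, fun p hp => if_pos hp⟩
  rcases Finset.mem_union.mp hv with e | e
  · simp only [if_pos e, if_neg (h v e).2]
    exact ⟨Finset.mem_union_right _ (Finset.mem_image_of_mem _ e), hψ v e, (h v e).1⟩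
  · obtain ⟨p, hp, rfl⟩ := Finset.mem_image.mp e
    simp only [if_neg (h p hp).2, hψ p hp, if_pos hp]
    exact ⟨Finset.mem_union_left _ hp, trivial, (h p hp).1.symm⟩

theorem card_ori {L : Finset V} {φ : V → V} (hinj : ∀ p ∈ L, ∀ q ∈ L, φ p = φ q → p = q)
    (h : ∀ p ∈ L, φ p ∉ L) : (L ∪ L.image φ).card = 2 * L.card := by
  rw [Finset.card_union_of_disjoint, Finset.card_image_of_injOn (fun p hp q hq => hinj p hp q hq)]
  · omega
  · rw [Finset.disjoint_right]
    intro v hv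
    obtain ⟨p, hp, rfl⟩ := Finset.mem_image.mp hv
    exact h p hp

theorem big_of_ori {C L : Finset V} {φ : V → V} {j : ℕ}
    (hinj : ∀ p ∈ L, ∀ q ∈ L, φ p = φ q → p = q)
    (h : ∀ p ∈ L, G.Adj p (φ p) ∧ φ p ∉ L) (h1 : ∀ p ∈ L, p ∈ C ∪ W ∧ φ p ∈ C ∪ W)
    (hj : j ≤ L.card) : Big G C j W := by
  obtain ⟨N, hN, _⟩ := exists_pm_ori hinj h
  refine ⟨_, fun v hv => ?_, ⟨N, hN⟩, ?_⟩
  · rcases Finset.mem_union.mp hv with e | e
    · exact (h1 v e).1
    · obtain ⟨p, hp, rfl⟩ := Finset.mem_image.mp e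
      exact (h1 p hp).2
  · rw [card_ori hinj fun p hp => (h p hp).2]
    omega

theorem Inv0.pm (I : Inv0 G ρ U H μ) {X : Finset V} (hX : X ⊆ H) :
    ∃ N, IsPM G N (X ∪ X.image μ) ∧ ∀ p ∈ X, N p = μ p :=
  exists_pm_ori (fun p hp q hq => I.inj p (hX hp) q (hX hq))
    fun p hp => ⟨(I.adj p (hX hp)).symm, fun e => I.lH p (hX hp) (hX e)⟩

theorem pm_pair {p w : V} (h : G.Adj p w) : ∃ N, IsPM G N {p, w} := by
  obtain ⟨N, hN, _⟩ := exists_pm_ori (G := G) (L := {p}) (φ := fun _ => w) (by simp)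
    (by simpa using ⟨h, h.ne'⟩)
  rw [Finset.image_singleton, ← Finset.insert_eq] at hN
  exact ⟨N, hN⟩

/-- The pairs on which `N` agrees with `μ`. -/
def agr (H : Finset V) (μ : V → V) (S : Finset V) (N : V → V) : Finset V :=
  H.filter fun h => h ∈ S ∧ N h = μ h

theorem improve1 (I : Inv0 G ρ U H μ) {S : Finset V} {N : V → V} (hS : S ⊆ Cv H μ ∪ W)
    (hN : IsPM G N S) {h : V} (hh : h ∈ H) (e : h ∉ S ∨ μ h ∉ S) :
    ∃ S' N', S' ⊆ Cv H μ ∪ W ∧ IsPM G N' S' ∧ S.card ≤ S'.card ∧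
      (agr H μ S N).card < (agr H μ S' N').card := by
  let T := S.filter fun v => v = h ∨ v = μ h ∨ N v = h ∨ N v = μ h
  have hT : ∀ v ∈ S, v ∈ T → N v ∈ T := by
    intro v hv e
    obtain ⟨h1, h2, _⟩ := hN v hv
    have := (Finset.mem_filter.mp e).2
    refine Finset.mem_filter.mpr ⟨h1, ?_⟩
    rw [h2]
    tauto
  obtain ⟨N1, h1, h2⟩ := I.pm (X := {h}) (by simpa using hh)
  have hd : ∀ v ∈ S \ T, v ∉ ({h} : Finset V) ∪ ({h} : Finset V).image μ := by
    intro v hv e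
    obtain ⟨h3, h4⟩ := Finset.mem_sdiff.mp hv
    refine h4 (Finset.mem_filter.mpr ⟨h3, ?_⟩)
    simp only [Finset.image_singleton, Finset.mem_union, Finset.mem_singleton] at e
    tauto
  have hc : T.card ≤ 2 := by
    rcases e with e | e
    · refine le_trans (Finset.card_le_card (t := {μ h, N (μ h)}) fun v hv => ?_)
        Finset.card_le_two
      obtain ⟨h3, h4⟩ := Finset.mem_filter.mp hv
      obtain ⟨h5, h6, _⟩ := hN v h3
      simp only [Finset.mem_insert, Finset.mem_singleton]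
      rcases h4 with h4 | h4 | h4 | h4
      · exact absurd (h4 ▸ h3) e
      · exact Or.inl h4
      · exact absurd (h4 ▸ h5) e
      · exact Or.inr (by rw [← h4, h6])
    · refine le_trans (Finset.card_le_card (t := {h, N h}) fun v hv => ?_) Finset.card_le_two
      obtain ⟨h3, h4⟩ := Finset.mem_filter.mp hv
      obtain ⟨h5, h6, _⟩ := hN v h3
      simp only [Finset.mem_insert, Finset.mem_singleton]
      rcases h4 with h4 | h4 | h4 | h4
      · exact Or.inl h4
      · exact absurd (h4 ▸ h3) e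
      · exact Or.inr (by rw [← h4, h6])
      · exact absurd (h4 ▸ h5) e
  refine ⟨_, _, ?_, (hN.sdiff hT).union h1 hd, ?_, ?_⟩
  · refine Finset.union_subset (Finset.sdiff_subset.trans hS) fun v hv => ?_
    refine Finset.mem_union_left _ (Finset.union_subset_union ?_ (Finset.image_subset_image ?_) hv)
    all_goals simpa using hh
  · rw [Finset.card_union_of_disjoint (Finset.disjoint_left.mpr hd),
      card_ori (by simp) (by simpa using fun e : μ h = h => I.lH h hh (e.symm ▸ hh)),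
      Finset.card_sdiff_of_subset (show T ⊆ S from Finset.filter_subset _ _)]
    simp only [Finset.card_singleton]
    omega
  · refine Finset.card_lt_card ⟨fun x hx => ?_, fun hsub => ?_⟩
    · obtain ⟨h3, h4, h5⟩ := Finset.mem_filter.mp hx
      have hxh : x ≠ h := by
        rintro rfl
        rcases e with e | e
        · exact e h4
        · exact e (h5 ▸ (hN x h4).1)
      have h6 : x ∈ S \ T := by
        refine Finset.mem_sdiff.mpr ⟨h4, fun e' => ?_⟩
        rcases (Finset.mem_filter.mp e').2 with h7 | h7 | h7 | h7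
        · exact hxh h7
        · exact I.lH h hh (h7 ▸ h3)
        · exact I.lH x h3 (by rw [← h5, h7]; exact hh)
        · exact hxh (I.inj x h3 h hh (h5.symm.trans h7))
      exact Finset.mem_filter.mpr ⟨h3, Finset.mem_union_left _ h6, by
        simp only [if_neg (hd x h6)]; exact h5⟩
    · have h3 : h ∈ ({h} : Finset V) ∪ ({h} : Finset V).image μ := by simp
      have h4 := hsub (Finset.mem_filter.mpr ⟨hh, Finset.mem_union_right _ h3, by
        simp only [if_pos h3]; exact h2 h (by simp)⟩)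
      obtain ⟨_, h5, h6⟩ := Finset.mem_filter.mp h4
      rcases e with e | e
      · exact e h5
      · exact e (h6 ▸ (hN h h5).1)

theorem improve2 (hp : PEO G ρ) (I : Inv0 G ρ U H μ) (hW : W ⊆ U) {S : Finset V} {N : V → V}
    (hS : S ⊆ Cv H μ ∪ W) (hN : IsPM G N S) (hC : ∀ h ∈ H, h ∈ S ∧ μ h ∈ S) {h0 : V}
    (hh : h0 ∈ H) (hbad : ρ h0 < ρ (N h0)) :
    ∃ S' N', S' ⊆ Cv H μ ∪ W ∧ IsPM G N' S' ∧ S.card ≤ S'.card ∧
      (agr H μ S N).card < (agr H μ S' N').card := by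
  classical
  obtain ⟨p, hpd⟩ : ∃ p, p = N h0 := ⟨_, rfl⟩
  rw [← hpd] at hbad
  have hNp : N p = h0 := by rw [hpd]; exact (hN h0 (hC h0 hh).1).2.1
  have hpS : p ∈ S := by rw [hpd]; exact (hN h0 (hC h0 hh).1).1
  let r : V → V → Prop := fun a c => a ∈ H ∧ ρ a < ρ p ∧ c = N (μ a)
  let X := H.filter fun h => ReflTransGen r h0 h ∧ ρ h < ρ p
  have hXH : X ⊆ H := Finset.filter_subset _ _
  have h0X : h0 ∈ X := Finset.mem_filter.mpr ⟨hh, ReflTransGen.refl, hbad⟩
  have hf0 : ∀ h ∈ X, N (μ h) ≠ h0 := by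
    intro h hx e
    have h1 : μ h = p := by rw [hpd, ← e, (hN _ (hC h (hXH hx)).2).2.1]
    have := I.lt h (hXH hx)
    have := (Finset.mem_filter.mp hx).2.2
    rw [h1] at *
    omega
  have finj : ∀ a ∈ X, ∀ c ∈ X, N (μ a) = N (μ c) → a = c := by
    intro a ha c hc e
    refine I.inj a (hXH ha) c (hXH hc) ?_
    rw [← (hN _ (hC a (hXH ha)).2).2.1, e, (hN _ (hC c (hXH hc)).2).2.1]
  obtain ⟨z, hz, hzw⟩ : ∃ z ∈ X, N (μ z) ∉ X := by
    by_contra hn
    push Not at hn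
    have := Finset.card_le_card_of_injOn (s := X) (t := X.erase h0) (fun h => N (μ h))
      (fun h hx => by
        simp only [Finset.coe_erase, Set.mem_sdiff, Finset.mem_coe, Set.mem_singleton_iff]
        exact ⟨hn h hx, hf0 h hx⟩) (fun a ha c hc => finj a ha c hc)
    rw [Finset.card_erase_of_mem h0X] at this
    have := Finset.card_pos.mpr ⟨h0, h0X⟩
    omega
  have hnext : ∀ a c, ReflTransGen r h0 a → c ∈ X → ReflTransGen r a c → a ≠ c →
      a ∈ X ∧ N (μ a) ∈ X := by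
    intro a c ha hc hac hne
    rcases hac.cases_head with h1 | ⟨d, h1, h2⟩
    · exact absurd h1 hne
    · refine ⟨Finset.mem_filter.mpr ⟨h1.1, ha, h1.2.1⟩, ?_⟩
      rw [← h1.2.2]
      rcases h2.cases_head with h3 | ⟨d', h3, _⟩
      · rw [h3]; exact hc
      · exact Finset.mem_filter.mpr ⟨h3.1, ha.tail h1, h3.2.1⟩
  have huniq : ∀ a ∈ X, a ≠ z → N (μ a) ∈ X := by
    intro a ha hne
    have h1 := (Finset.mem_filter.mp ha).2.1
    have h2 := (Finset.mem_filter.mp hz).2.1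
    rcases ReflTransGen.total_of_right_unique (r := r)
      (fun _ _ _ e1 e2 => e1.2.2.trans e2.2.2.symm) h1 h2 with h3 | h3
    · exact (hnext a z h1 hz h3 hne).2
    · exact absurd (hnext z a h2 ha h3 hne.symm).2 hzw
  obtain ⟨w, hwd⟩ : ∃ w, w = N (μ z) := ⟨_, rfl⟩
  rw [← hwd] at hzw
  have hzH := hXH hz
  have hwS : w ∈ S := by rw [hwd]; exact (hN _ (hC z hzH).2).1
  have hNw : N w = μ z := by rw [hwd]; exact (hN _ (hC z hzH).2).2.1
  have hzadj : G.Adj (μ z) w := by rw [hwd]; exact (hN _ (hC z hzH).2).2.2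
  have hwp : w ≠ p := by
    intro e
    rw [e, hNp] at hNw
    exact I.lH z hzH (hNw ▸ hh)
  have hw : w ∈ U ∨ ρ p ≤ ρ w := by
    rcases Finset.mem_union.mp (hS hwS) with h1 | h1
    · rcases mem_Cv.mp h1 with h2 | ⟨x, h2, h3⟩
      · right
        by_contra h4
        exact hzw (Finset.mem_filter.mpr ⟨h2, (Finset.mem_filter.mp hz).2.1.tail
          ⟨hzH, (Finset.mem_filter.mp hz).2.2, hwd⟩, by omega⟩)
      · exact absurd (h3 ▸ hzadj) (I.ind z hzH x h2)
    · exact Or.inl (hW h1)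
  have hchain : ∀ a, ReflTransGen r a z → a ∈ H → ρ a < ρ p → To G gen H μ (μ a) w ∧
      (Low G ρ (min (ρ p) (ρ w)) p a → Low G ρ (min (ρ p) (ρ w)) p w) := by
    have fin : ∀ a ∈ H, ρ a < ρ p → To G gen H μ (μ a) w → ρ a < min (ρ p) (ρ w) := by
      intro a ha h1 h2
      rcases hw with h3 | h3
      · have := I.top a ha w h3 h2
        omega
      · omega
    intro a ha
    induction ha using ReflTransGen.head_induction_on with
    | refl =>
      intro h1 h2
      have h3 := fin z h1 h2 (To.of_adj hzadj)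
      have h4 := I.lt z h1
      exact ⟨To.of_adj hzadj, fun h5 =>
        Low.step (Low.step h5 h3 (I.adj z h1).symm) (by omega) hzadj⟩
    | @head a c h1 h2 ih =>
      intro h3 h4
      have h5 : c ∈ H ∧ ρ c < ρ p := by
        rcases h2.cases_head with h6 | ⟨d, h6, _⟩
        · rw [h6]; exact ⟨hzH, (Finset.mem_filter.mp hz).2.2⟩
        · exact ⟨h6.1, h6.2.1⟩
      obtain ⟨h6, h7⟩ := ih h5.1 h5.2
      have h8 : G.Adj (μ a) c := by rw [h1.2.2]; exact (hN _ (hC a h3).2).2.2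
      have h9 : To G gen H μ (μ a) w := To.cons h5.1 h8 trivial h6
      have h10 := fin a h3 h4 h9
      have h11 := I.lt a h3
      exact ⟨h9, fun h12 =>
        h7 (Low.step (Low.step h12 h10 (I.adj a h3).symm) (by omega) h8)⟩
  have hpw : G.Adj p w := by
    refine ((hchain h0 (Finset.mem_filter.mp hz).2.1 hh hbad).2 (Low.base ?_)).adj hp
      (min_le_left _ _) (min_le_right _ _) hwp
    rw [← hNp]; exact (hN p hpS).2.2
  obtain ⟨N1, h1, h2⟩ := I.pm hXH
  obtain ⟨N2, h3⟩ := pm_pair hpw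
  have hpX : p ∉ X ∪ X.image μ := by
    intro e
    rcases Finset.mem_union.mp e with h4 | h4
    · exact absurd (Finset.mem_filter.mp h4).2.2 (lt_irrefl _)
    · obtain ⟨x, h5, h6⟩ := Finset.mem_image.mp h4
      exact hf0 x h5 (by rw [h6, hNp])
  have hwX : w ∉ X ∪ X.image μ := by
    intro e
    rcases Finset.mem_union.mp e with h4 | h4
    · exact hzw h4
    · obtain ⟨x, h5, h6⟩ := Finset.mem_image.mp h4
      exact I.ind z hzH x (hXH h5) (h6 ▸ hzadj)
  let T := ({p, w} : Finset V) ∪ (X ∪ X.image μ)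
  have hT : ∀ v ∈ S, v ∈ T → N v ∈ T := by
    intro v hv e
    simp only [T, Finset.mem_union, Finset.mem_insert, Finset.mem_singleton,
      Finset.mem_image] at e ⊢
    rcases e with (rfl | rfl) | e | ⟨x, e, rfl⟩
    · rw [hNp]; exact Or.inr (Or.inl h0X)
    · rw [hNw]; exact Or.inr (Or.inr ⟨z, hz, rfl⟩)
    · rcases (Finset.mem_filter.mp e).2.1.cases_tail with h4 | ⟨a, h4, h5⟩
      · rw [h4, ← hpd]; exact Or.inl (Or.inl rfl)
      · refine Or.inr (Or.inr ⟨a, Finset.mem_filter.mpr ⟨h5.1, h4, h5.2.1⟩, ?_⟩)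
        rw [h5.2.2, (hN _ (hC a h5.1).2).2.1]
    · by_cases h4 : x = z
      · rw [h4, ← hwd]; exact Or.inl (Or.inr rfl)
      · exact Or.inr (Or.inl (huniq x e h4))
  have hTS : T ⊆ S := by
    intro v e
    simp only [T, Finset.mem_union, Finset.mem_insert, Finset.mem_singleton,
      Finset.mem_image] at e
    rcases e with (rfl | rfl) | e | ⟨x, e, rfl⟩
    · exact hpS
    · exact hwS
    · exact (hC v (hXH e)).1
    · exact (hC x (hXH e)).2
  have hd1 : ∀ v ∈ S \ T, v ∉ ({p, w} : Finset V) := fun v hv e =>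
    (Finset.mem_sdiff.mp hv).2 (Finset.mem_union_left _ e)
  have hd2 : ∀ v ∈ S \ T ∪ {p, w}, v ∉ X ∪ X.image μ := by
    intro v hv e
    rcases Finset.mem_union.mp hv with h4 | h4
    · exact (Finset.mem_sdiff.mp h4).2 (Finset.mem_union_right _ e)
    · simp only [Finset.mem_insert, Finset.mem_singleton] at h4
      rcases h4 with rfl | rfl
      · exact hpX e
      · exact hwX e
  have heq : S \ T ∪ {p, w} ∪ (X ∪ X.image μ) = S := by
    rw [Finset.union_assoc]
    exact Finset.sdiff_union_of_subset hTS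
  have hPM := ((hN.sdiff hT).union h3 hd1).union h1 hd2
  rw [heq] at hPM
  refine ⟨S, _, hS, hPM, le_rfl, Finset.card_lt_card ⟨fun x hx => ?_, fun hsub => ?_⟩⟩
  · obtain ⟨h4, h5, h6⟩ := Finset.mem_filter.mp hx
    refine Finset.mem_filter.mpr ⟨h4, h5, ?_⟩
    by_cases e : x ∈ X
    · simp only [if_pos (Finset.mem_union_left _ e)]
      exact h2 x e
    · have h7 : x ∉ X ∪ X.image μ := by
        intro e'
        rcases Finset.mem_union.mp e' with h7 | h7
        · exact e h7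
        · obtain ⟨y, h8, h9⟩ := Finset.mem_image.mp h7
          exact I.lH y (hXH h8) (h9 ▸ h4)
      have h8 : x ∉ ({p, w} : Finset V) := by
        intro e'
        simp only [Finset.mem_insert, Finset.mem_singleton] at e'
        rcases e' with rfl | rfl
        · exact I.lH x h4 (by rw [← h6, hNp]; exact hh)
        · exact e (I.inj x h4 z hzH (h6.symm.trans hNw) ▸ hz)
      simp only [if_neg h7, if_neg h8]
      exact h6
  · have h4 := hsub (Finset.mem_filter.mpr ⟨hh, (hC h0 hh).1, by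
      simp only [if_pos (Finset.mem_union_left _ h0X)]
      exact h2 h0 h0X⟩)
    have h5 := (Finset.mem_filter.mp h4).2.2
    have h6 := I.lt h0 hh
    rw [← h5, ← hpd] at h6
    omega

theorem normal (hp : PEO G ρ) (I : Inv0 G ρ U H μ) (hW : W ⊆ U) (d : ℕ) :
    ∀ (S : Finset V) (N : V → V), S ⊆ Cv H μ ∪ W → IsPM G N S →
      H.card ≤ (agr H μ S N).card + d →
      ∃ S' N', S' ⊆ Cv H μ ∪ W ∧ IsPM G N' S' ∧ S.card ≤ S'.card ∧
        (∀ h ∈ H, h ∈ S' ∧ μ h ∈ S') ∧ ∀ h ∈ H, ρ (N' h) < ρ h := by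
  have key : ∀ (S : Finset V) (N : V → V), S ⊆ Cv H μ ∪ W → IsPM G N S →
      ((∀ h ∈ H, h ∈ S ∧ μ h ∈ S) ∧ ∀ h ∈ H, ρ (N h) < ρ h) ∨
      ∃ S' N', S' ⊆ Cv H μ ∪ W ∧ IsPM G N' S' ∧ S.card ≤ S'.card ∧
        (agr H μ S N).card < (agr H μ S' N').card := by
    intro S N hS hN
    by_cases h1 : ∀ h ∈ H, h ∈ S ∧ μ h ∈ S
    · by_cases h2 : ∀ h ∈ H, ρ (N h) < ρ h
      · exact Or.inl ⟨h1, h2⟩
      · push Not at h2
        obtain ⟨h, hh, h3⟩ := h2
        have h4 : ρ h ≠ ρ (N h) := fun e => (hN h (h1 h hh).1).2.2.ne (hp.inj e)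
        exact Or.inr (improve2 hp I hW hS hN h1 hh (by omega))
    · push Not at h1
      obtain ⟨h, hh, h3⟩ := h1
      exact Or.inr (improve1 I hS hN hh (by tauto))
  induction d with
  | zero =>
    intro S N hS hN hd
    rcases key S N hS hN with h | ⟨S', N', _, _, _, h⟩
    · exact ⟨S, N, hS, hN, le_rfl, h⟩
    · have : (agr H μ S' N').card ≤ H.card := Finset.card_filter_le _ _
      omega
  | succ d ih =>
    intro S N hS hN hd
    rcases key S N hS hN with h | ⟨S', N', h1, h2, h3, h⟩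
    · exact ⟨S, N, hS, hN, le_rfl, h⟩
    · obtain ⟨S'', N'', h4, h5, h6, h7⟩ := ih S' N' h1 h2 (by omega)
      exact ⟨S'', N'', h4, h5, by omega, h7⟩

/-- An oriented matching. -/
structure Ori (G : SimpleGraph V) (ρ : V → ℕ) (H : Finset V) (μ : V → V) (W A : Finset V)
    (φ : V → V) : Prop where
  sub : A ⊆ W
  inj : ∀ p ∈ H.image μ ∪ A, ∀ q ∈ H.image μ ∪ A, φ p = φ q → p = q
  adj : ∀ p ∈ H.image μ ∪ A, G.Adj p (φ p) ∧ ρ p < ρ (φ p) ∧ (φ p ∈ H ∨ (φ p ∈ W ∧ φ p ∉ A))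
  surj : ∀ h ∈ H, ∃ p ∈ H.image μ ∪ A, φ p = h

theorem exists_ori (hp : PEO G ρ) (I : Inv0 G ρ U H μ) (hW : W ⊆ U) {k : ℕ}
    (h : Big G (Cv H μ) (H.card + k) W) : ∃ A φ, Ori G ρ H μ W A φ ∧ k ≤ A.card := by
  obtain ⟨S0, h1, ⟨N0, h2⟩, h3⟩ := h
  obtain ⟨S, N, hS, hN, h4, hC, hb⟩ := normal hp I hW H.card S0 N0 h1 h2 (by omega)
  let A := (S ∩ W).filter fun a => ρ a < ρ (N a)
  have hL : ∀ h ∈ H, ρ (μ h) < ρ (N (μ h)) ∧ (N (μ h) ∈ H ∨ N (μ h) ∈ W) := by
    intro h hh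
    obtain ⟨e1, e2, e3⟩ := hN _ (hC h hh).2
    rcases Finset.mem_union.mp (hS e1) with e4 | e4
    · rcases mem_Cv.mp e4 with e5 | ⟨x, e5, e6⟩
      · have := hb _ e5
        rw [e2] at this
        exact ⟨this, Or.inl e5⟩
      · exact absurd (e6 ▸ e3) (I.ind h hh x e5)
    · have := I.top h hh _ (hW e4) (To.of_adj e3)
      have := I.lt h hh
      exact ⟨by omega, Or.inr e4⟩
  have hLS : ∀ p ∈ H.image μ ∪ A, p ∈ S ∧ ρ p < ρ (N p) := by
    intro p hp'
    rcases Finset.mem_union.mp hp' with e | e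
    · obtain ⟨x, e1, rfl⟩ := Finset.mem_image.mp e
      exact ⟨(hC x e1).2, (hL x e1).1⟩
    · exact ⟨(Finset.mem_inter.mp (Finset.mem_filter.mp e).1).1, (Finset.mem_filter.mp e).2⟩
  have hlow : ∀ p ∈ S, ρ p < ρ (N p) → p ∈ H.image μ ∪ A := by
    intro p e1 e2
    rcases Finset.mem_union.mp (hS e1) with e4 | e4
    · rcases Finset.mem_union.mp e4 with e5 | e5
      · have := hb p e5
        omega
      · exact Finset.mem_union_left _ e5
    · exact Finset.mem_union_right _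
        (Finset.mem_filter.mpr ⟨Finset.mem_inter.mpr ⟨e1, e4⟩, e2⟩)
  refine ⟨A, N, ⟨fun a ha => (Finset.mem_inter.mp (Finset.mem_filter.mp ha).1).2,
    fun p hp' q hq e => ?_, fun p hp' => ?_, fun h hh => ?_⟩, ?_⟩
  · rw [← (hN p (hLS p hp').1).2.1, e, (hN q (hLS q hq).1).2.1]
  · obtain ⟨e1, e2⟩ := hLS p hp'
    obtain ⟨e3, e4, e5⟩ := hN p e1
    have e6 : N p ∉ H.image μ ∪ A := fun e => by
      have := (hLS _ e).2
      rw [e4] at this
      omega
    refine ⟨e5, e2, ?_⟩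
    rcases Finset.mem_union.mp (hS e3) with e7 | e7
    · rcases Finset.mem_union.mp e7 with e8 | e8
      · exact Or.inl e8
      · exact absurd (Finset.mem_union_left _ e8) e6
    · exact Or.inr ⟨e7, fun e => e6 (Finset.mem_union_right _ e)⟩
  · obtain ⟨e3, e4, _⟩ := hN h (hC h hh).1
    exact ⟨N h, hlow _ e3 (by rw [e4]; exact hb h hh), e4⟩
  · have e1 : S ⊆ (H.image μ ∪ A) ∪ (H.image μ ∪ A).image N := by
      intro v hv
      obtain ⟨e3, e4, e5⟩ := hN v hv
      rcases lt_trichotomy (ρ v) (ρ (N v)) with e6 | e6 | e6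
      · exact Finset.mem_union_left _ (hlow v hv e6)
      · exact absurd (hp.inj e6) e5.ne
      · exact Finset.mem_union_right _
          (Finset.mem_image.mpr ⟨N v, hlow _ e3 (by rw [e4]; exact e6), e4⟩)
    have e2 := Finset.card_le_card e1
    have e3 := Finset.card_union_le (H.image μ ∪ A) ((H.image μ ∪ A).image N)
    have e4 : ((H.image μ ∪ A).image N).card ≤ _ := Finset.card_image_le
    have e5 := Finset.card_union_le (H.image μ) A
    have e6 : (H.image μ).card ≤ _ := Finset.card_image_le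
    omega

variable {A : Finset V} {φ : V → V}

theorem Ori.fwd (I : Inv0 G ρ U H μ) (hW : W ⊆ U) (O : Ori G ρ H μ W A φ) {a : V} (ha : a ∈ A) :
    ∃ c ∈ W, c ∉ A ∧ To G gen H μ a c := by
  classical
  by_contra hn
  push Not at hn
  let X := (H.image μ ∪ A).filter fun p => Rch G gen H μ a p
  have haX : a ∈ X := Finset.mem_filter.mpr ⟨Finset.mem_union_right _ ha, ReflTransGen.refl⟩
  have hH : ∀ p ∈ X, φ p ∈ H := by
    intro p hp
    obtain ⟨h1, h2⟩ := Finset.mem_filter.mp hp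
    obtain ⟨h3, _, h4⟩ := O.adj p h1
    rcases h4 with h4 | h4
    · exact h4
    · exact absurd ⟨p, h2, h3⟩ (hn _ h4.1 h4.2)
  have := Finset.card_le_card_of_injOn (s := X) (t := X.erase a) (fun p => μ (φ p))
    (fun p hp => by
      simp only [Finset.coe_erase, Set.mem_sdiff, Finset.mem_coe, Set.mem_singleton_iff]
      obtain ⟨h1, h2⟩ := Finset.mem_filter.mp hp
      refine ⟨Finset.mem_filter.mpr ⟨Finset.mem_union_left _
        (Finset.mem_image_of_mem _ (hH p hp)), h2.snoc (hH p hp) (O.adj p h1).1 trivial⟩,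
        fun e => I.lU _ (hH p hp) (e ▸ hW (O.sub ha))⟩)
    (fun p hp q hq e => O.inj p (Finset.mem_filter.mp hp).1 q (Finset.mem_filter.mp hq).1
      (I.inj _ (hH p hp) _ (hH q hq) e))
  rw [Finset.card_erase_of_mem haX] at this
  have := Finset.card_pos.mpr ⟨a, haX⟩
  omega

theorem Ori.bwd (O : Ori G ρ H μ W A φ) {y p : V} (hy : y ∉ H) (hp : p ∈ H.image μ ∪ A)
    (e : φ p = y) : ∃ a ∈ A, To G gen H μ a y := by
  classical
  by_contra hn
  push Not at hn
  let Y := H.filter fun h => To G gen H μ (μ h) y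
  have h1 : insert y Y ⊆ Y.image fun h => φ (μ h) := by
    intro v hv
    obtain ⟨q, h2, h3, h4⟩ : ∃ q ∈ H.image μ ∪ A, φ q = v ∧ To G gen H μ q y := by
      rcases Finset.mem_insert.mp hv with rfl | hv
      · exact ⟨p, hp, e, To.of_adj (e ▸ (O.adj p hp).1)⟩
      · obtain ⟨h2, h3⟩ := Finset.mem_filter.mp hv
        obtain ⟨q, h4, h5⟩ := O.surj v h2
        exact ⟨q, h4, h5, To.cons h2 (h5 ▸ (O.adj q h4).1) trivial h3⟩
    rcases Finset.mem_union.mp h2 with h5 | h5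
    · obtain ⟨x, h6, rfl⟩ := Finset.mem_image.mp h5
      exact Finset.mem_image.mpr ⟨x, Finset.mem_filter.mpr ⟨h6, h4⟩, h3⟩
    · exact absurd h4 (hn q h5)
  have h2 := Finset.card_le_card h1
  rw [Finset.card_insert_of_notMem (show y ∉ Y from fun h => hy (Finset.mem_filter.mp h).1)] at h2
  have h3 : (Y.image fun h => φ (μ h)).card ≤ _ := Finset.card_image_le
  omega

theorem Inv0.card_img (I : Inv0 G ρ U H μ) : (H.image μ).card = H.card :=
  Finset.card_image_of_injOn fun p hp q hq => I.inj p hp q hq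

theorem Ori.big (I : Inv0 G ρ U H μ) (hW : W ⊆ U) (O : Ori G ρ H μ W A φ) {H' W' : Finset V}
    (hH : H' ⊆ H) (hA : A ⊆ W') (h : ∀ p ∈ H'.image μ ∪ A, φ p ∈ H' ∨ φ p ∈ W') {k : ℕ}
    (hk : k ≤ A.card) : Big G (Cv H' μ) (H'.card + k) W' := by
  have hsub : H'.image μ ∪ A ⊆ H.image μ ∪ A :=
    Finset.union_subset_union (Finset.image_subset_image hH) subset_rfl
  refine big_of_ori (L := H'.image μ ∪ A) (φ := φ)
    (fun p hp q hq => O.inj p (hsub hp) q (hsub hq)) (fun p hp => ?_) (fun p hp => ?_) ?_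
  · obtain ⟨h1, _, h2⟩ := O.adj p (hsub hp)
    refine ⟨h1, fun e => ?_⟩
    rcases Finset.mem_union.mp (hsub e) with h3 | h3
    · obtain ⟨x, h4, h5⟩ := Finset.mem_image.mp h3
      rcases h2 with h2 | h2
      · exact I.lH x h4 (h5 ▸ h2)
      · exact I.lU x h4 (h5 ▸ hW h2.1)
    · rcases h2 with h2 | h2
      · exact I.hU _ h2 (hW (O.sub h3))
      · exact h2.2 h3
  · constructor
    · rcases Finset.mem_union.mp hp with h3 | h3
      · exact Finset.mem_union_left _ (Finset.mem_union_right _ h3)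
      · exact Finset.mem_union_right _ (hA h3)
    · rcases h p hp with h3 | h3
      · exact Finset.mem_union_left _ (Finset.mem_union_left _ h3)
      · exact Finset.mem_union_right _ h3
  · rw [Finset.card_union_of_disjoint, (I.mono subset_rfl hH).card_img]
    · omega
    · rw [Finset.disjoint_left]
      intro v hv e
      obtain ⟨x, h4, rfl⟩ := Finset.mem_image.mp hv
      exact I.lU x (hH h4) (hW (O.sub e))

theorem big_zero (I : Inv0 G ρ U H μ) (W : Finset V) : Big G (Cv H μ) (H.card + 0) W := by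
  obtain ⟨N, h1, _⟩ := I.pm subset_rfl
  refine ⟨_, Finset.subset_union_left, ⟨N, h1⟩, ?_⟩
  rw [Cv, card_ori I.inj I.lH]
  omega

theorem up_of_big (hp : PEO G ρ) (I : Inv0 G ρ U H μ) (hW : W ⊆ U) {k : ℕ}
    (h : Big G (Cv H μ) (H.card + (k + 1)) W) : ∃ a ∈ U, ∃ c ∈ U, Up G ρ H μ a c := by
  obtain ⟨A, φ, O, hk⟩ := exists_ori hp I hW h
  obtain ⟨a, ha⟩ := Finset.card_pos.mp (show 0 < A.card by omega)
  obtain ⟨c, h1, h2, h3⟩ := O.fwd I hW ha
  rcases I.conv hp (hW (O.sub ha)) (hW h1) (fun e => h2 (e ▸ ha)) h3 with h4 | h4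
  · exact ⟨a, hW (O.sub ha), c, hW h1, h4⟩
  · exact ⟨c, hW h1, a, hW (O.sub ha), h4⟩

theorem big_erase (hp : PEO G ρ) (I : Inv0 G ρ U H μ) (hW : W ⊆ U) {y : V} (hy : y ∈ U)
    (hn : ∀ w ∈ W, ¬ Nb G ρ H μ y w) {k : ℕ} (h : Big G (Cv H μ) (H.card + k) (insert y W)) :
    Big G (Cv H μ) (H.card + k) W := by
  have hW' : insert y W ⊆ U := Finset.insert_subset hy hW
  obtain ⟨A, φ, O, hk⟩ := exists_ori hp I hW' h
  have h1 : y ∉ A := by
    intro e
    obtain ⟨c, h1, h2, h3⟩ := O.fwd I hW' e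
    have h4 : y ≠ c := fun e' => h2 (e' ▸ e)
    exact hn c ((Finset.mem_insert.mp h1).resolve_left h4.symm) (I.conv hp hy (hW' h1) h4 h3)
  have h2 : A ⊆ W := fun a ha =>
    (Finset.mem_insert.mp (O.sub ha)).resolve_left fun e => h1 (e ▸ ha)
  refine O.big I hW' subset_rfl h2 (fun p hp' => ?_) hk
  rcases (O.adj p hp').2.2 with h3 | h3
  · exact Or.inl h3
  · refine Or.inr ((Finset.mem_insert.mp h3.1).resolve_left fun e => ?_)
    obtain ⟨a, h4, h5⟩ := O.bwd (fun e => I.hU y e hy) hp' e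
    exact hn a (h2 h4) (I.conv hp (hW (h2 h4)) hy (fun e => h1 (e ▸ h4)) h5).symm

open Classical in
/-- The in-ports that can be reached from `U` by an ascending walk. -/
noncomputable def alive (G : SimpleGraph V) (ρ : V → ℕ) (U H : Finset V) (μ : V → V) :
    Finset V :=
  H.filter fun h => ∃ a ∈ U, ∃ p, Rch G (asc ρ) H μ a p ∧ G.Adj p h ∧ ρ p < ρ h

theorem mem_alive {h : V} : h ∈ alive G ρ U H μ ↔
    h ∈ H ∧ ∃ a ∈ U, ∃ p, Rch G (asc ρ) H μ a p ∧ G.Adj p h ∧ ρ p < ρ h := by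
  classical
  exact Finset.mem_filter

theorem alive_sub : alive G ρ U H μ ⊆ H := fun _ h => (mem_alive.mp h).1

theorem alive_rch {h : V} (hh : h ∈ alive G ρ U H μ) : ∃ a ∈ U, Rch G (asc ρ) H μ a (μ h) := by
  obtain ⟨h1, a, ha, p, h2, h3, h4⟩ := mem_alive.mp hh
  exact ⟨a, ha, h2.snoc h1 h3 h4⟩

theorem Rch.alive {a q : V} (ha : a ∈ U) (h : Rch G (asc ρ) H μ a q) :
    Rch G (asc ρ) (alive G ρ U H μ) μ a q := by
  induction h with
  | refl => exact ReflTransGen.refl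
  | tail h0 h ih =>
    obtain ⟨x, h1, h2, h3, rfl⟩ := h
    exact ih.snoc (mem_alive.mpr ⟨h1, a, ha, _, h0, h2, h3⟩) h2 h3

theorem Up.alive {a c : V} (ha : a ∈ U) (h : Up G ρ H μ a c) :
    Up G ρ (alive G ρ U H μ) μ a c :=
  let ⟨h1, q, h2, h3⟩ := h; ⟨h1, q, h2.alive ha, h3⟩

theorem big_alive (hp : PEO G ρ) (I : Inv0 G ρ U H μ) (hW : W ⊆ U) {k : ℕ} :
    Big G (Cv H μ) (H.card + k) W ↔
      Big G (Cv (alive G ρ U H μ) μ) ((alive G ρ U H μ).card + k) W := by
  constructor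
  · intro h
    obtain ⟨A, φ, O, hk⟩ := exists_ori hp I hW h
    refine O.big I hW alive_sub O.sub (fun p hp' => ?_) hk
    obtain ⟨h1, h2, h3⟩ := O.adj p
      (Finset.union_subset_union (Finset.image_subset_image alive_sub) subset_rfl hp')
    rcases h3 with h3 | h3
    · left
      rcases Finset.mem_union.mp hp' with h4 | h4
      · obtain ⟨x, h5, rfl⟩ := Finset.mem_image.mp h4
        obtain ⟨a, h6, h7⟩ := alive_rch h5
        exact mem_alive.mpr ⟨h3, a, h6, _, h7, h1, h2⟩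
      · exact mem_alive.mpr ⟨h3, p, hW (O.sub h4), p, ReflTransGen.refl, h1, h2⟩
    · exact Or.inr h3.1
  · rintro ⟨S, h1, h2, h3⟩
    obtain ⟨N, h4, _⟩ := I.pm (X := H \ alive G ρ U H μ) Finset.sdiff_subset
    have hd : ∀ v ∈ S, v ∉ (H \ alive G ρ U H μ) ∪ (H \ alive G ρ U H μ).image μ := by
      intro v hv e
      rcases Finset.mem_union.mp e with h5 | h5
      · obtain ⟨h6, h7⟩ := Finset.mem_sdiff.mp h5
        rcases Finset.mem_union.mp (h1 hv) with h8 | h8
        · rcases mem_Cv.mp h8 with h9 | ⟨x, h9, rfl⟩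
          · exact h7 h9
          · exact I.lH x (alive_sub h9) h6
        · exact I.hU v h6 (hW h8)
      · obtain ⟨x, h6, rfl⟩ := Finset.mem_image.mp h5
        obtain ⟨h6, h7⟩ := Finset.mem_sdiff.mp h6
        rcases Finset.mem_union.mp (h1 hv) with h8 | h8
        · rcases mem_Cv.mp h8 with h9 | ⟨x', h9, h10⟩
          · exact I.lH x h6 (alive_sub h9)
          · exact h7 (I.inj x' (alive_sub h9) x h6 h10 ▸ h9)
        · exact I.lU x h6 (hW h8)
    refine ⟨_, Finset.union_subset (h1.trans (Finset.union_subset_union ?_ subset_rfl)) ?_,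
      h2.union ⟨N, h4⟩ hd, ?_⟩
    · exact Finset.union_subset_union alive_sub (Finset.image_subset_image alive_sub)
    · exact (Finset.union_subset_union Finset.sdiff_subset
        (Finset.image_subset_image Finset.sdiff_subset)).trans Finset.subset_union_left
    · rw [Finset.card_union_of_disjoint (Finset.disjoint_left.mpr hd),
        card_ori (fun p hp q hq => I.inj p (Finset.mem_sdiff.mp hp).1 q (Finset.mem_sdiff.mp hq).1)
          (fun p hp e => I.lH p (Finset.mem_sdiff.mp hp).1 (Finset.mem_sdiff.mp e).1),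
        Finset.card_sdiff_of_subset alive_sub]
      have := Finset.card_le_card (alive_sub (G := G) (ρ := ρ) (U := U) (H := H) (μ := μ))
      omega

end Pool.Agent.Lib.MP_1d5e93_al
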