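import Pool.Agent.Lib.MP_1d5e93_al.NF

set_option autoImplicit false
set_option linter.unusedSectionVars false

namespace Pool.Agent.Lib.MP_1d5e93_al

open Relation

variable {V : Type} [DecidableEq V] {G : SimpleGraph V} {ρ : V → ℕ}

/-- The structures measuring a state. -/
structure Str (G : SimpleGraph V) (ρ : V → ℕ) (U H : Finset V) (μ : V → V) (NS S : Finset V)
    (f : V → ℕ) : Prop where
  sub : S ⊆ Cv H μ ∪ U
  pm : PM G S
  lab : ∀ u ∈ S, ∀ v ∈ S, G.Adj u v → f u = f v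
  conn : ∀ v ∈ S, ∃ c, In G S v c ∧ c ∈ U ∧ ∃ a ∈ U, Up G ρ H μ a c
  out : ∀ h ∈ S, h ∈ H → ∃ c ∈ U, To G gen H μ (μ h) c
  ns : ∀ h ∈ S, h ∈ H → μ h ∈ NS → μ h ∈ S

/-- Twice the size of a structure. -/
def sz2 (L S : Finset V) : ℤ := (S.card : ℤ) - 2 * (S ∩ L).card

/-- The bound on all structures of a state. -/
def Bd (G : SimpleGraph V) (ρ : V → ℕ) (U H : Finset V) (μ : V → V) (NS : Finset V) (k : ℕ)
    (r : ℤ) : Prop :=
  ∀ S f, Str G ρ U H μ NS S f → sz2 (H.image μ) S + 2 ≤ 2 * k + 2 * (S.image f).card →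
    sz2 (H.image μ) S + 2 * k ≤ 2 * r + 2

variable {U U' H H' NS S : Finset V} {μ μ' : V → V} {f : V → ℕ}

theorem Inv0.memH (I : Inv0 G ρ U H μ) (hU : U' ⊆ U) (hH : H' ⊆ H) (hS : S ⊆ Cv H' μ ∪ U')
    {h : V} (h1 : h ∈ S) (h2 : h ∈ H) : h ∈ H' := by
  rcases Finset.mem_union.mp (hS h1) with h3 | h3
  · rcases mem_Cv.mp h3 with h4 | ⟨x, h4, rfl⟩
    · exact h4
    · exact absurd h2 (I.lH x (hH h4))
  · exact absurd (hU h3) (I.hU h h2)

theorem Inv0.memU (I : Inv0 G ρ U H μ) (hH : H' ⊆ H) (hS : S ⊆ Cv H' μ ∪ U')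
    {v : V} (h1 : v ∈ S) (h2 : v ∈ U) : v ∈ U' := by
  rcases Finset.mem_union.mp (hS h1) with h3 | h3
  · rcases mem_Cv.mp h3 with h4 | ⟨x, h4, rfl⟩
    · exact absurd h2 (I.hU v (hH h4))
    · exact absurd h2 (I.lU x (hH h4))
  · exact h3

theorem Inv0.inter (I : Inv0 G ρ U H μ) (hU : U' ⊆ U) (hH : H' ⊆ H) (hS : S ⊆ Cv H' μ ∪ U') :
    S ∩ H.image μ = S ∩ H'.image μ := by
  refine Finset.Subset.antisymm (fun v hv => ?_)
    (Finset.inter_subset_inter subset_rfl (Finset.image_subset_image hH))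
  obtain ⟨h1, h2⟩ := Finset.mem_inter.mp hv
  obtain ⟨x, h3, rfl⟩ := Finset.mem_image.mp h2
  refine Finset.mem_inter.mpr ⟨h1, ?_⟩
  rcases Finset.mem_union.mp (hS h1) with h4 | h4
  · rcases Finset.mem_union.mp h4 with h5 | h5
    · exact absurd (hH h5) (I.lH x h3)
    · exact h5
  · exact absurd (hU h4) (I.lU x h3)

theorem Str.mono (I : Inv0 G ρ U H μ) (hU : U' ⊆ U) (hH : H' ⊆ H)
    (T : Str G ρ U' H' μ NS S f) : Str G ρ U H μ NS S f where
  sub := T.sub.trans (Finset.union_subset_union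
    (Finset.union_subset_union hH (Finset.image_subset_image hH)) hU)
  pm := T.pm
  lab := T.lab
  conn := fun v hv =>
    let ⟨c, h1, h2, a, h3, h4⟩ := T.conn v hv; ⟨c, h1, hU h2, a, hU h3, h4.sub hH⟩
  out := fun h h1 h2 =>
    let ⟨c, h3, h4⟩ := T.out h h1 (I.memH hU hH T.sub h1 h2); ⟨c, hU h3, h4.sub hH⟩
  ns := fun h h1 h2 => T.ns h h1 (I.memH hU hH T.sub h1 h2)

theorem Bd.mono {k : ℕ} {r : ℤ} (I : Inv0 G ρ U H μ) (hU : U' ⊆ U) (hH : H' ⊆ H)
    (B : Bd G ρ U H μ NS k r) : Bd G ρ U' H' μ NS k r := by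
  intro S f T h
  have h1 := B S f (T.mono I hU hH)
  unfold sz2 at *
  rw [I.inter hU hH T.sub] at h1
  exact h1 h

theorem add_low (hp : PEO G ρ) (I : Inv0 G ρ U H μ) {s y : V} {P : Finset V} (hs : s ∈ U)
    (hy : y ∈ U) (hsy : Up G ρ H μ s y) (A : Aug G ρ H μ s y P μ')
    (ymin : ∀ a ∈ U, ∀ c ∈ U, Up G ρ H μ a c → ρ y ≤ ρ c)
    (sub : S ⊆ Cv H μ ∪ U) (pm : PM G S) (lab : ∀ u ∈ S, ∀ v ∈ S, G.Adj u v → f u = f v)
    (conn : ∀ v ∈ S, ∃ c, In G S v c ∧ c ∈ U ∧ c ≠ y ∧ ∃ a ∈ U, Up G ρ H μ a c)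
    (out : ∀ h ∈ S, h ∈ H → ∃ c ∈ U, To G gen H μ (μ h) c)
    (ns : ∀ h ∈ S, h ∈ insert y H → μ' h ∈ insert s NS → μ' h ∈ S) :
    ∃ S' f', Str G ρ U H μ NS S' f' ∧
      sz2 (H.image μ) S' = sz2 (insert s (H.image μ)) S + 2 ∧
      (S.image f).card ≤ (S'.image f').card ∧
      ((∀ v ∈ S, ρ y < ρ v → ¬ G.Adj y v) → (S.image f).card + 1 ≤ (S'.image f').card) := by
  classical
  let D := (insert y P).filter fun h => h ∉ S ∧ μ' h ∉ S
  have hDP : D ⊆ insert y P := Finset.filter_subset _ _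
  have hPH : insert y P ⊆ insert y H := Finset.insert_subset_insert _ A.sub
  have hμH : ∀ h ∈ insert y H, μ' h ∉ insert y H := by
    intro h hh e
    rcases A.mem_range hh with h1 | ⟨x, h1, h2⟩
    · rw [h1] at e
      rcases Finset.mem_insert.mp e with h3 | h3
      · have := hsy.1
        rw [h3] at this
        omega
      · exact I.hU s h3 hs
    · rw [← h2] at e
      rcases Finset.mem_insert.mp e with h3 | h3
      · exact I.lU x h1 (h3 ▸ hy)
      · exact I.lH x h1 h3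
  have hinj : ∀ p ∈ D, ∀ q ∈ D, μ' p = μ' q → p = q := fun p hp q hq =>
    A.inj p (hPH (hDP hp)) q (hPH (hDP hq))
  have hDD : ∀ p ∈ D, μ' p ∉ D := fun p hp e => hμH p (hPH (hDP hp)) (hPH (hDP e))
  obtain ⟨N, hN, _⟩ := exists_pm_ori (G := G) hinj
    fun p hp => ⟨(A.adj p (hDP hp)).1.symm, hDD p hp⟩
  let E := D ∪ D.image μ'
  have hd : ∀ v ∈ S, v ∉ E := by
    intro v hv e
    rcases Finset.mem_union.mp e with h1 | h1
    · exact (Finset.mem_filter.mp h1).2.1 hv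
    · obtain ⟨x, h2, rfl⟩ := Finset.mem_image.mp h1
      exact (Finset.mem_filter.mp h2).2.2 hv
  have hlow : ∀ v ∈ E, v = y ∨ (ρ v < ρ y ∧ Low G ρ (ρ y) y v) := by
    intro v e
    rcases Finset.mem_union.mp e with h1 | h1
    · exact (A.low I hy v (hDP h1)).1
    · obtain ⟨x, h2, rfl⟩ := Finset.mem_image.mp h1
      exact Or.inr (A.low I hy x (hDP h2)).2
  have touch : ∀ v ∈ S, (v = y ∨ Low G ρ (ρ y) y v) →
      ∃ w ∈ S, f v = f w ∧ ρ y < ρ w ∧ G.Adj y w := by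
    intro v hv e
    obtain ⟨c, h1, h2, h3, a, h4, h5⟩ := conn v hv
    have h6 := ymin a h4 c h2 h5
    have h7 : ρ c ≠ ρ y := fun e => h3 (hp.inj e)
    obtain ⟨w, h8, h9⟩ := first_above hp h1 (by omega) e
    exact ⟨w, h8.mem hv, h8.lab lab hv, h9⟩
  obtain ⟨g, hg1, hg2⟩ : ∃ g : ℕ, (∀ w ∈ S, ρ y < ρ w → G.Adj y w → f w = g) ∧
      ((∀ v ∈ S, ρ y < ρ v → ¬ G.Adj y v) → g ∉ S.image f) := by
    by_cases e : ∃ w ∈ S, ρ y < ρ w ∧ G.Adj y w
    · obtain ⟨w, h1, h2, h3⟩ := e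
      refine ⟨f w, fun v h4 h5 h6 => ?_, fun h => absurd h3 (h w h1 h2)⟩
      by_cases h7 : v = w
      · rw [h7]
      · exact lab v h4 w h1 (hp.cl y v w h6 h3 h5 h2 h7)
    · obtain ⟨g, hg⟩ := Infinite.exists_notMem_finset (S.image f)
      exact ⟨g, fun w h1 h2 h3 => absurd ⟨w, h1, h2, h3⟩ e, fun _ => hg⟩
  have hmix : ∀ u ∈ S, ∀ v ∈ E, G.Adj v u → f u = g := by
    intro u hu v hv e
    obtain ⟨w, h1, h2, h3, h4⟩ := touch u hu (Or.inr (by
      rcases hlow v hv with h1 | h1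
      · rw [h1] at e; exact Low.base e
      · exact Low.step h1.2 h1.1 e))
    rw [h2, hg1 w h1 h3 h4]
  have hin : ∀ h ∈ insert y P, μ' h ∈ insert s NS → μ' h ∈ S ∪ E := by
    intro h hh e
    by_cases h1 : μ' h ∈ S
    · exact Finset.mem_union_left _ h1
    · refine Finset.mem_union_right _ (Finset.mem_union_right _ (Finset.mem_image_of_mem _ ?_))
      exact Finset.mem_filter.mpr ⟨hh, fun h2 => h1 (ns h h2 (hPH hh) e), h1⟩
  have hsS : s ∈ S ∪ E := by
    have h1 : s ∈ (insert y P).image μ' := by rw [A.img]; exact Finset.mem_insert_self _ _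
    obtain ⟨x, h2, h3⟩ := Finset.mem_image.mp h1
    rw [← h3]
    exact hin x h2 (by rw [h3]; exact Finset.mem_insert_self _ _)
  have hconnS : ∀ v ∈ S, ∃ c, In G (S ∪ E) v c ∧ c ∈ U ∧ ∃ a ∈ U, Up G ρ H μ a c :=
    fun v hv => let ⟨c, h1, h2, _, h4⟩ := conn v hv; ⟨c, h1.mono Finset.subset_union_left, h2, h4⟩
  have hhead : ∀ u v, v ∈ S ∪ E → G.Adj u v →
      (∃ c, In G (S ∪ E) v c ∧ c ∈ U ∧ ∃ a ∈ U, Up G ρ H μ a c) →
      ∃ c, In G (S ∪ E) u c ∧ c ∈ U ∧ ∃ a ∈ U, Up G ρ H μ a c :=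
    fun u v h1 h2 ⟨c, h3, h4⟩ => ⟨c, ReflTransGen.head ⟨h1, h2⟩ h3, h4⟩
  have hconnD : ∀ h ∈ D, ∃ c, In G (S ∪ E) h c ∧ c ∈ U ∧ ∃ a ∈ U, Up G ρ H μ a c := by
    have h0 : ∃ c, In G (S ∪ E) y c ∧ c ∈ U ∧ ∃ a ∈ U, Up G ρ H μ a c :=
      ⟨y, ReflTransGen.refl, hy, s, hs, hsy⟩
    have h1 := A.ind (fun h => h ∈ D → ∃ c, In G (S ∪ E) h c ∧ c ∈ U ∧ ∃ a ∈ U, Up G ρ H μ a c)
      (fun _ => h0) (fun h hh x hx e hQ _ => by
        obtain ⟨h2, h3⟩ := A.adj x hx
        rw [e] at h2 h3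
        have h4 := I.adj h (A.sub hh)
        have h5 := I.lt h (A.sub hh)
        by_cases h6 : μ h ∈ S
        · exact hhead h _ (Finset.mem_union_left _ h6) h4.symm (hconnS _ h6)
        · have h7 : (x ∈ S ∪ E) ∧ ∃ c, In G (S ∪ E) x c ∧ c ∈ U ∧ ∃ a ∈ U, Up G ρ H μ a c := by
            by_cases h7 : x ∈ S
            · exact ⟨Finset.mem_union_left _ h7, hconnS _ h7⟩
            · have h8 : x ∈ D := Finset.mem_filter.mpr ⟨hx, h7, by rw [e]; exact h6⟩
              exact ⟨Finset.mem_union_right _ (Finset.mem_union_left _ h8), hQ h8⟩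
          by_cases h8 : h = x
          · rw [h8]; exact h7.2
          · exact hhead h x h7.1 (hp.cl _ h x h4 h2 h5 h3 h8) h7.2)
    intro h hh
    rcases Finset.mem_insert.mp (hDP hh) with rfl | h2
    · exact h0
    · exact h1 h h2 hh
  have himg : S.image f ⊆ (S ∪ E).image fun v => if v ∈ S then f v else g := by
    intro i hi
    obtain ⟨v, h1, rfl⟩ := Finset.mem_image.mp hi
    exact Finset.mem_image.mpr ⟨v, Finset.mem_union_left _ h1, if_pos h1⟩
  refine ⟨S ∪ E, fun v => if v ∈ S then f v else g, ⟨?_, pm.union ⟨N, hN⟩ hd, ?_, ?_, ?_, ?_⟩,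
    ?_, Finset.card_le_card himg, fun hno => ?_⟩
  · refine Finset.union_subset sub fun v e => ?_
    rcases Finset.mem_union.mp e with h1 | h1
    · rcases Finset.mem_insert.mp (hDP h1) with rfl | h2
      · exact Finset.mem_union_right _ hy
      · exact Finset.mem_union_left _ (mem_Cv.mpr (Or.inl (A.sub h2)))
    · obtain ⟨x, h2, rfl⟩ := Finset.mem_image.mp h1
      rcases A.mem_range (hPH (hDP h2)) with h3 | h3
      · rw [h3]; exact Finset.mem_union_right _ hs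
      · exact Finset.mem_union_left _ (mem_Cv.mpr (Or.inr h3))
  · intro u hu v hv e
    by_cases h1 : u ∈ S <;> by_cases h2 : v ∈ S
    · simp only [if_pos h1, if_pos h2]; exact lab u h1 v h2 e
    · simp only [if_pos h1, if_neg h2]
      exact hmix u h1 v ((Finset.mem_union.mp hv).resolve_left h2) e.symm
    · simp only [if_neg h1, if_pos h2]
      exact (hmix v h2 u ((Finset.mem_union.mp hu).resolve_left h1) e).symm
    · simp only [if_neg h1, if_neg h2]
  · intro v hv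
    rcases Finset.mem_union.mp hv with h1 | h1
    · exact hconnS v h1
    · rcases Finset.mem_union.mp h1 with h2 | h2
      · exact hconnD v h2
      · obtain ⟨x, h3, rfl⟩ := Finset.mem_image.mp h2
        exact hhead _ x (Finset.mem_union_right _ (Finset.mem_union_left _ h3))
          (A.adj x (hDP h3)).1 (hconnD x h3)
  · intro h h1 h2
    rcases Finset.mem_union.mp h1 with h3 | h3
    · exact out h h3 h2
    · rcases Finset.mem_union.mp h3 with h4 | h4
      · rcases Finset.mem_insert.mp (hDP h4) with h5 | h5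
        · exact absurd (h5 ▸ h2) A.tH
        · exact ⟨y, hy, (A.to h h5).gen'⟩
      · obtain ⟨x, h5, rfl⟩ := Finset.mem_image.mp h4
        exact absurd (Finset.mem_insert_of_mem h2) (hμH x (hPH (hDP h5)))
  · intro h h1 h2 h3
    by_cases e : h ∈ P
    · have h4 : μ h ∈ (insert y P).image μ' := by
        rw [A.img]; exact Finset.mem_insert_of_mem (Finset.mem_image_of_mem _ e)
      obtain ⟨x, h5, h6⟩ := Finset.mem_image.mp h4
      rw [← h6]
      exact hin x h5 (by rw [h6]; exact Finset.mem_insert_of_mem h3)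
    · have h4 : h ∈ S := by
        refine (Finset.mem_union.mp h1).resolve_right fun h4 => ?_
        rcases Finset.mem_union.mp h4 with h5 | h5
        · rcases Finset.mem_insert.mp (hDP h5) with h6 | h6
          · exact A.tH (h6 ▸ h2)
          · exact e h6
        · obtain ⟨x, h6, rfl⟩ := Finset.mem_image.mp h5
          exact hμH x (hPH (hDP h6)) (Finset.mem_insert_of_mem h2)
      rw [← A.off h h2 e] at h3 ⊢
      exact Finset.mem_union_left _
        (ns h h4 (Finset.mem_insert_of_mem h2) (Finset.mem_insert_of_mem h3))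
  · have h1 : (S ∪ E).card = S.card + 2 * D.card := by
      rw [Finset.card_union_of_disjoint (Finset.disjoint_left.mpr hd), card_ori hinj hDD]
    have h2 : insert s ((S ∪ E) ∩ H.image μ) = (S ∩ insert s (H.image μ)) ∪ D.image μ' := by
      ext v
      constructor
      · intro e
        have h3 : v ∈ S ∪ E ∧ v ∈ insert s (H.image μ) := by
          rcases Finset.mem_insert.mp e with rfl | e
          · exact ⟨hsS, Finset.mem_insert_self _ _⟩
          · exact ⟨(Finset.mem_inter.mp e).1, Finset.mem_insert_of_mem (Finset.mem_inter.mp e).2⟩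
        rcases Finset.mem_union.mp h3.1 with h4 | h4
        · exact Finset.mem_union_left _ (Finset.mem_inter.mpr ⟨h4, h3.2⟩)
        · rcases Finset.mem_union.mp h4 with h5 | h5
          · have h6 := h3.2
            rw [← A.range] at h6
            obtain ⟨x, h7, rfl⟩ := Finset.mem_image.mp h6
            exact absurd (hPH (hDP h5)) (hμH x h7)
          · exact Finset.mem_union_right _ h5
      · intro e
        have h3 : v ∈ S ∪ E ∧ v ∈ insert s (H.image μ) := by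
          rcases Finset.mem_union.mp e with h4 | h4
          · exact ⟨Finset.mem_union_left _ (Finset.mem_inter.mp h4).1, (Finset.mem_inter.mp h4).2⟩
          · refine ⟨Finset.mem_union_right _ (Finset.mem_union_right _ h4), ?_⟩
            rw [← A.range]
            exact Finset.image_subset_image (hDP.trans hPH) h4
        rcases Finset.mem_insert.mp h3.2 with h4 | h4
        · exact Finset.mem_insert.mpr (Or.inl h4)
        · exact Finset.mem_insert_of_mem (Finset.mem_inter.mpr ⟨h3.1, h4⟩)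
    have h3 := congrArg Finset.card h2
    rw [Finset.card_insert_of_notMem (fun e => A.sL (Finset.mem_inter.mp e).2),
      Finset.card_union_of_disjoint (Finset.disjoint_left.mpr fun v hv e =>
        hd v (Finset.mem_inter.mp hv).1 (Finset.mem_union_right _ e)),
      Finset.card_image_of_injOn (fun p hp q hq => hinj p hp q hq)] at h3
    unfold sz2
    omega
  · have h1 : s ∉ S := by
      intro e
      have h1 : s ∈ (insert y P).image μ' := by rw [A.img]; exact Finset.mem_insert_self _ _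
      obtain ⟨x, h2, h3⟩ := Finset.mem_image.mp h1
      obtain ⟨w, h4, _, h5, h6⟩ := touch s e (Or.inr (h3 ▸ (A.low I hy x h2).2.2))
      exact hno w h4 h5 h6
    rw [← Finset.card_insert_of_notMem (hg2 hno)]
    exact Finset.card_le_card (Finset.insert_subset
      (Finset.mem_image.mpr ⟨s, hsS, if_neg h1⟩) himg)

theorem bd_out (hp : PEO G ρ) (I : Inv0 G ρ U H μ) {x y : V} (hx : x ∈ U) (hy : y ∈ U)
    (hxy : Up G ρ H μ x y) (ymin : ∀ a ∈ U, ∀ c ∈ U, Up G ρ H μ a c → ρ y ≤ ρ c)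
    (hU : U' ⊆ U) (hy' : y ∉ U') (hn : ∀ w ∈ U', ¬ Nb G ρ H μ y w) {k : ℕ} {r : ℤ}
    (B : Bd G ρ U H μ NS k r) : Bd G ρ U' H μ NS k (r - 1) := by
  intro S f T h
  obtain ⟨P, ν, A⟩ := I.aug hx hy hxy
  have hyS : y ∉ S := fun e => hy' (I.memU subset_rfl T.sub e hy)
  have hxS : x ∉ S := fun e => hn x (I.memU subset_rfl T.sub e hx) (Or.inr hxy)
  have hno : ∀ v ∈ S, ρ y < ρ v → ¬ G.Adj y v := by
    intro v hv h1 h2
    rcases Finset.mem_union.mp (T.sub hv) with h3 | h3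
    · rcases mem_Cv.mp h3 with h4 | ⟨z, h4, rfl⟩
      · obtain ⟨c, h5, h6⟩ := T.out v hv h4
        exact hn c h5 (I.conv hp hy (hU h5) (fun e => hy' (e ▸ h5)) (To.cons h4 h2 trivial h6))
      · have := I.top z h4 y hy (To.of_adj h2.symm)
        have := I.lt z h4
        omega
    · exact hn v h3 (Or.inl ⟨h1, To.of_adj h2⟩)
  have T' := T.mono I hU subset_rfl
  have conn : ∀ v ∈ S, ∃ c, In G S v c ∧ c ∈ U ∧ c ≠ y ∧ ∃ a ∈ U, Up G ρ H μ a c :=
    fun v hv => let ⟨c, h1, h2, h3⟩ := T'.conn v hv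
      ⟨c, h1, h2, fun e => hyS (e ▸ h1.mem hv), h3⟩
  obtain ⟨S', f', T'', h1, _, h3⟩ := add_low (NS := NS) hp I hx hy hxy A ymin T'.sub T.pm T.lab
    conn T'.out (fun h h1 h2 h3 => by
      rcases A.cases h2 with h4 | ⟨h4, _, h5⟩
      · exfalso
        obtain ⟨c, h5, h6, h7, a, h8, h9⟩ := conn h h1
        have h10 := ymin a h8 c h6 h9
        have h11 : ρ c ≠ ρ y := fun e => h7 (hp.inj e)
        obtain ⟨w, h12, h13, h14⟩ := first_above hp h5 (show ρ y < ρ c by omega)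
          ((A.low I hy h h4).1.imp id fun e => e.2)
        exact hno w (h12.mem h1) h13 h14
      · rw [h5] at h3 ⊢
        rcases Finset.mem_insert.mp h3 with h6 | h6
        · exact absurd (h6 ▸ hx) (I.lU h h4)
        · exact T.ns h h1 h4 h6)
  have h4 := h3 hno
  have h5 := B S' f' T''
  unfold sz2 at *
  rw [Finset.inter_insert_of_notMem hxS] at h1
  omega

theorem sub_aug {s t : V} {P : Finset V} (A : Aug G ρ H μ s t P μ') (hs : s ∈ U) (ht : t ∈ U)
    (hU : U' ⊆ U) : Cv (insert t H) μ' ∪ U' ⊆ Cv H μ ∪ U := by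
  intro v hv
  rcases Finset.mem_union.mp hv with h1 | h1
  · rcases mem_Cv.mp h1 with h2 | ⟨x, h2, rfl⟩
    · rcases Finset.mem_insert.mp h2 with rfl | h3
      · exact Finset.mem_union_right _ ht
      · exact Finset.mem_union_left _ (mem_Cv.mpr (Or.inl h3))
    · rcases A.mem_range h2 with h3 | h3
      · rw [h3]; exact Finset.mem_union_right _ hs
      · exact Finset.mem_union_left _ (mem_Cv.mpr (Or.inr h3))
  · exact Finset.mem_union_right _ (hU h1)

theorem bd_A (hp : PEO G ρ) (I : Inv0 G ρ U H μ) {z y : V} {P : Finset V} (hz : z ∈ U)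
    (hy : y ∈ U) (hzy : Up G ρ H μ z y) (A : Aug G ρ H μ z y P μ')
    (ymin : ∀ a ∈ U, ∀ c ∈ U, Up G ρ H μ a c → ρ y ≤ ρ c) (hU : U' ⊆ U) (hy' : y ∉ U')
    (H2 : ∀ c ∈ U', To G gen H μ z c → ρ y < ρ c) {k : ℕ} {r : ℤ}
    (B : Bd G ρ U H μ NS (k + 1) r) :
    Bd G ρ U' (insert y H) μ' (insert z NS) k (r - 2) := by
  intro S f T h
  obtain ⟨S', f', T', h1, h2, _⟩ := add_low (NS := NS) hp I hz hy hzy A ymin
    (T.sub.trans (sub_aug A hz hy hU)) T.pm T.lab
    (fun v hv => let ⟨c, h1, h2, a, h3, h4⟩ := T.conn v hv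
      ⟨c, h1, hU h2, fun e => hy' (e ▸ h2), A.upper hz hzy.1 hU H2 h3 h2 h4⟩)
    (fun h h1 h2 => A.out hy hU h2 fun _ => T.out h h1 (Finset.mem_insert_of_mem h2)) T.ns
  have h5 := B S' f' T'
  rw [A.range] at h ⊢
  push_cast at h5
  omega

theorem str_B {y z : V} {P : Finset V} (hy : y ∈ U) (hz : z ∈ U) (hyz : ρ y < ρ z)
    (A : Aug G ρ H μ y z P μ') (hU : U' ⊆ U) (H2 : ∀ c ∈ U', To G gen H μ y c → ρ z < ρ c)
    (H3 : ∀ l ∈ NS, ¬ Rch G (asc ρ) H μ y l) (T : Str G ρ U' (insert z H) μ' NS S f) :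
    Str G ρ U H μ NS S f where
  sub := T.sub.trans (sub_aug A hy hz hU)
  pm := T.pm
  lab := T.lab
  conn := fun v hv => let ⟨c, h1, h2, _, h3, h4⟩ := T.conn v hv
    ⟨c, h1, hU h2, A.upper hy hyz hU H2 h3 h2 h4⟩
  out := fun h h1 h2 => A.out hz hU h2 fun _ => T.out h h1 (Finset.mem_insert_of_mem h2)
  ns := fun h h1 h2 h3 => by
    by_cases e : h ∈ P
    · exact absurd (A.frm h e) (H3 _ h3)
    · rw [← A.off h h2 e] at h3 ⊢
      exact T.ns h h1 (Finset.mem_insert_of_mem h2) h3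

theorem bd_B (hp : PEO G ρ) (I : Inv0 G ρ U H μ) {x y z : V} {P U'' : Finset V} (hx : x ∈ U)
    (hxy : Up G ρ H μ x y) (ymin : ∀ a ∈ U, ∀ c ∈ U, Up G ρ H μ a c → ρ y ≤ ρ c)
    (hU'' : U'' ⊆ U) (hy : y ∈ U'') (hz : z ∈ U'') (hyz : ρ y < ρ z)
    (hdel : ∀ a ∈ U'', ¬ Up G ρ H μ a y)
    (A : Aug G ρ (alive G ρ U'' H μ) μ y z P μ') (hU : U' ⊆ U'')
    (H2 : ∀ c ∈ U', To G gen (alive G ρ U'' H μ) μ y c → ρ z < ρ c)
    (H3 : ∀ l ∈ NS, ¬ Rch G (asc ρ) (alive G ρ U'' H μ) μ y l) {k : ℕ} {r : ℤ}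
    (B : Bd G ρ U H μ NS (k + 1) r) :
    Bd G ρ U' (insert z (alive G ρ U'' H μ)) μ' NS k (r - 2) := by
  intro S f T h
  have T1 := str_B hy hz hyz A hU H2 H3 T
  have T2 := T1.mono I hU'' alive_sub
  have hint := I.inter hU'' alive_sub T1.sub
  rw [A.range] at h ⊢
  by_cases hyS : y ∈ S
  · have h5 := B S f T2
    unfold sz2 at *
    rw [Finset.inter_insert_of_mem hyS,
      Finset.card_insert_of_notMem (fun e => A.sL (Finset.mem_inter.mp e).2), ← hint] at h ⊢
    push_cast at *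
    omega
  · obtain ⟨Q, ν, A'⟩ := I.aug hx (hU'' hy) hxy
    have hxS : x ∉ S := fun e => hdel x (I.memU alive_sub T1.sub e hx) hxy
    obtain ⟨S', f', T', h1, h2, _⟩ := add_low (NS := NS) hp I hx (hU'' hy) hxy A' ymin
      T2.sub T.pm T.lab
      (fun v hv => let ⟨c, h1, h2, h3⟩ := T2.conn v hv
        ⟨c, h1, h2, fun e => hyS (e ▸ h1.mem hv), h3⟩) T2.out
      (fun h h1 h2 h3 => by
        rcases A'.cases h2 with h4 | ⟨h4, _, h5⟩
        · exfalso
          rcases Finset.mem_insert.mp h4 with h5 | h5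
          · exact hyS (h5 ▸ h1)
          · have h6 := A'.to h h5
            have h7 := A'.sub h5
            obtain ⟨a, h8, h9⟩ := alive_rch (I.memH hU'' alive_sub T1.sub h1 h7)
            have h10 := I.top h h7 y (hU'' hy) h6.gen'
            have h11 := I.lt h h7
            exact hdel a h8 ⟨I.lt_of_asc h9 (by omega) h6.gen' (hU'' hy), h9.to h6⟩
        · rw [h5] at h3 ⊢
          rcases Finset.mem_insert.mp h3 with h6 | h6
          · exact absurd (h6 ▸ hx) (I.lU h h4)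
          · exact T2.ns h h1 h4 h6)
    have h5 := B S' f' T'
    unfold sz2 at *
    rw [Finset.inter_insert_of_notMem hxS] at h1
    rw [Finset.inter_insert_of_notMem hyS, ← hint] at h ⊢
    push_cast at *
    omega

end Pool.Agent.Lib.MP_1d5e93_al
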