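import Pool.Agent.Lib.MP_1d5e93_al.Defs
import Pool.Agent.Lib.MP_f8058f_co.Dirac

set_option autoImplicit false

namespace Pool.Agent.Lib.MP_1d5e93_al

open SimpleGraph

/-- `ρ` is a perfect elimination ordering. -/
structure PEO {V : Type} (G : SimpleGraph V) (ρ : V → ℕ) : Prop where
  inj : Function.Injective ρ
  cl : ∀ v a b, G.Adj v a → G.Adj v b → ρ v < ρ a → ρ v < ρ b → a ≠ b → G.Adj a b

theorem chordal_of {n : ℕ} {G : SimpleGraph (Fin n)} (h : Chordal G) :
    MP_f8058f_co.Chordal G := by
  intro v c hc hl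
  by_contra hn
  have hch : c.IsChordless := fun e he => hn ⟨e, he⟩
  have hinj := hc.getVert_injOn'
  have hlast : c.getVert c.length = c.getVert 0 := by simp
  have key : ∀ i j : Fin c.length, c.getVert i = c.getVert j → i = j := by
    intro i j hij
    have := hinj (x₁ := i.val) (x₂ := j.val) (by simp only [Set.mem_ofPred_eq]; omega)
      (by simp only [Set.mem_ofPred_eq]; omega) hij
    exact Fin.ext this
  have succ : ∀ (i j : Fin c.length), (j - i).val = 1 ↔
      c.getVert (i.val + 1) = c.getVert j.val := by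
    intro i j
    have hi := i.2
    have hj := j.2
    by_cases h1 : i.val + 1 < c.length
    · constructor
      · intro e
        have : j.val = i.val + 1 := by
          rw [Fin.sub_def] at e
          simp only at e
          rcases Nat.lt_or_ge j.val i.val with h2 | h2
          · rw [Nat.mod_eq_of_lt (by omega)] at e; omega
          · rw [show c.length - i.val + j.val = (j.val - i.val) + c.length by omega,
              Nat.add_mod_right, Nat.mod_eq_of_lt (by omega)] at e
            omega
        rw [this]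
      · intro e
        have h0 : i.val + 1 = j.val := congrArg Fin.val (key ⟨i.val + 1, h1⟩ j e)
        rw [Fin.sub_def]
        simp only
        rw [show c.length - i.val + j.val = 1 + c.length by omega, Nat.add_mod_right,
          Nat.mod_eq_of_lt (by omega)]
    · have h2 : i.val + 1 = c.length := by omega
      rw [h2, hlast]
      constructor
      · intro e
        have : j.val = 0 := by
          rw [Fin.sub_def] at e
          simp only at e
          rcases Nat.lt_or_ge j.val i.val with h3 | h3
          · rw [Nat.mod_eq_of_lt (by omega)] at e; omega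
          · rw [show c.length - i.val + j.val = c.length by omega, Nat.mod_self] at e
            omega
        rw [this]
      · intro e
        have h0 : (0 : ℕ) = j.val := congrArg Fin.val (key ⟨0, by omega⟩ j e)
        rw [Fin.sub_def]
        simp only
        rw [show c.length - i.val + j.val = 1 by omega, Nat.mod_eq_of_lt (by omega)]
  refine (h c.length hl).false ⟨⟨fun i => c.getVert i, fun i j hij => key i j hij⟩, ?_⟩
  intro i j
  simp only [Function.Embedding.coeFn_mk]
  rw [cycleGraph_adj', succ, succ]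
  constructor
  · intro hadj
    have hm := hch.mem_edges (c.getVert_mem_support i) (c.getVert_mem_support j) hadj
    obtain ⟨t, ht, h0⟩ := (Walk.mk_mem_edges_iff_exists c).mp hm
    rcases Sym2.eq_iff.mp h0 with h1 | h1
    · right
      have := key ⟨t, ht⟩ i h1.1
      subst this
      exact h1.2
    · left
      have := key ⟨t, ht⟩ j h1.1
      subst this
      exact h1.2
  · rintro (e | e)
    · rw [← e]; exact (c.adj_getVert_succ j.2).symm
    · rw [← e]; exact c.adj_getVert_succ i.2

theorem exists_simp {V : Type} {G : SimpleGraph V} (h : MP_f8058f_co.Chordal G) (W : Finset V)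
    (hW : W.Nonempty) :
    ∃ x ∈ W, ∀ y ∈ W, ∀ z ∈ W, G.Adj x y → G.Adj x z → y ≠ z → G.Adj y z := by
  by_cases hall : ∀ y ∈ W, ∀ z ∈ W, y ≠ z → G.Adj y z
  · obtain ⟨x, hx⟩ := hW
    exact ⟨x, hx, fun y hy z hz _ _ h => hall y hy z hz h⟩
  · push Not at hall
    obtain ⟨u, hu, v, hv, huv, hn⟩ := hall
    obtain ⟨x, hx, _, _, s⟩ := MP_f8058f_co.dirac_aux h _ W {u} v le_rfl (by simp)
      (by simpa using hu) (by simp) hv (by simpa using huv.symm)
      (by simpa using fun h => hn h.symm)
    exact ⟨x, hx, s⟩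

theorem exists_peo_aux {V : Type} [DecidableEq V] {G : SimpleGraph V}
    (h : MP_f8058f_co.Chordal G) (n : ℕ) : ∀ W : Finset V, W.card = n →
    ∃ ρ : V → ℕ, (∀ a ∈ W, ∀ b ∈ W, ρ a = ρ b → a = b) ∧
      ∀ v ∈ W, ∀ a ∈ W, ∀ b ∈ W, G.Adj v a → G.Adj v b → ρ v < ρ a → ρ v < ρ b → a ≠ b →
        G.Adj a b := by
  induction n with
  | zero =>
    intro W hW
    rw [Finset.card_eq_zero] at hW
    subst hW
    exact ⟨fun _ => 0, by simp, by simp⟩
  | succ n ih =>
    intro W hW
    obtain ⟨x, hx, hs⟩ := exists_simp h W (Finset.card_pos.mp (by omega))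
    obtain ⟨ρ, h1, h2⟩ := ih (W.erase x) (by rw [Finset.card_erase_of_mem hx]; omega)
    refine ⟨fun v => if v = x then 0 else ρ v + 1, fun a ha b hb e => ?_,
      fun v hv a ha b hb e1 e2 l1 l2 hab => ?_⟩
    · by_cases h3 : a = x <;> by_cases h4 : b = x
      · rw [h3, h4]
      · simp [h3, h4] at e
      · simp [h3, h4] at e
      · simp only [h3, h4, if_false] at e
        exact h1 a (Finset.mem_erase.mpr ⟨h3, ha⟩) b (Finset.mem_erase.mpr ⟨h4, hb⟩) (by omega)
    · by_cases h3 : v = x
      · subst h3
        exact hs a ha b hb e1 e2 hab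
      · have h4 : a ≠ x := by
          intro e; simp [e] at l1
        have h5 : b ≠ x := by
          intro e; simp [e] at l2
        simp only [h3, h4, h5, if_false] at l1 l2
        exact h2 v (Finset.mem_erase.mpr ⟨h3, hv⟩) a (Finset.mem_erase.mpr ⟨h4, ha⟩) b
          (Finset.mem_erase.mpr ⟨h5, hb⟩) e1 e2 (by omega) (by omega) hab

theorem exists_peo {n : ℕ} {G : SimpleGraph (Fin n)} (h : Chordal G) : ∃ ρ, PEO G ρ := by
  obtain ⟨ρ, h1, h2⟩ := exists_peo_aux (chordal_of h) _ Finset.univ rfl
  exact ⟨ρ, fun a b e => h1 a (Finset.mem_univ _) b (Finset.mem_univ _) e,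
    fun v a b => h2 v (Finset.mem_univ _) a (Finset.mem_univ _) b (Finset.mem_univ _)⟩

variable {V : Type} {G : SimpleGraph V} {ρ : V → ℕ}

/-- A walk from `a` whose interior vertices have rank below `t`. -/
inductive Low (G : SimpleGraph V) (ρ : V → ℕ) (t : ℕ) (a : V) : V → Prop
  | base {b : V} : G.Adj a b → Low G ρ t a b
  | step {b c : V} : Low G ρ t a b → ρ b < t → G.Adj b c → Low G ρ t a c

/-- An ascending path to `a` through vertices of rank below `t`. -/
inductive Asc (G : SimpleGraph V) (ρ : V → ℕ) (t : ℕ) (a : V) : V → Prop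
  | base {b : V} : G.Adj b a → ρ b < t → Asc G ρ t a b
  | step {b c : V} : Asc G ρ t a c → G.Adj b c → ρ b < ρ c → Asc G ρ t a b

theorem Asc.lt {t : ℕ} {a b : V} (h : Asc G ρ t a b) : ρ b < t := by
  induction h with
  | base _ h => exact h
  | step _ _ h ih => omega

theorem Asc.up (hp : PEO G ρ) {t : ℕ} {a b : V} (ha : t ≤ ρ a) (h : Asc G ρ t a b) :
    ∀ c, G.Adj b c → ρ b < ρ c →
      (ρ c < t → Asc G ρ t a c) ∧ (t ≤ ρ c → c = a ∨ G.Adj a c) := by
  induction h with
  | @base b h1 h2 =>
    intro c hc hl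
    by_cases e : c = a
    · subst e
      exact ⟨fun h => absurd h (by omega), fun _ => Or.inl rfl⟩
    · have := hp.cl b c a hc h1 hl (by omega) e
      exact ⟨fun h => Asc.base this h, fun _ => Or.inr this.symm⟩
  | @step b d h1 h2 h3 ih =>
    intro c hc hl
    have hd := h1.lt
    by_cases e : c = d
    · subst e
      exact ⟨fun _ => h1, fun h => absurd h (by omega)⟩
    · have h4 := hp.cl b c d hc h2 hl h3 e
      rcases lt_trichotomy (ρ c) (ρ d) with h5 | h5 | h5
      · exact ⟨fun _ => Asc.step h1 h4 h5, fun h => absurd h (by omega)⟩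
      · exact absurd (hp.inj h5) e
      · exact ih c h4.symm h5

theorem Low.aux (hp : PEO G ρ) {t : ℕ} {a b : V} (ha : t ≤ ρ a) (h : Low G ρ t a b) :
    (ρ b < t → Asc G ρ t a b) ∧ (t ≤ ρ b → b = a ∨ G.Adj a b) := by
  induction h with
  | base h => exact ⟨fun h1 => Asc.base h.symm h1, fun _ => Or.inr h⟩
  | @step b c _ h2 h3 ih =>
    have h4 := ih.1 h2
    rcases lt_trichotomy (ρ b) (ρ c) with h5 | h5 | h5
    · exact h4.up hp ha c h3 h5
    · exact absurd (hp.inj h5) h3.ne
    · exact ⟨fun _ => Asc.step h4 h3.symm h5, fun h => absurd h (by omega)⟩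

/-- The walk lemma. -/
theorem Low.adj (hp : PEO G ρ) {t : ℕ} {a b : V} (h : Low G ρ t a b) (ha : t ≤ ρ a)
    (hb : t ≤ ρ b) (hab : b ≠ a) : G.Adj a b :=
  ((h.aux hp ha).2 hb).resolve_left hab

/-- Walks inside `S`. -/
def In (G : SimpleGraph V) (S : Finset V) : V → V → Prop :=
  Relation.ReflTransGen fun p q => q ∈ S ∧ G.Adj p q

theorem In.mem {S : Finset V} {a b : V} (h : In G S a b) (ha : a ∈ S) : b ∈ S := by
  induction h with
  | refl => exact ha
  | tail _ h _ => exact h.1

theorem In.mono {S T : Finset V} (hST : S ⊆ T) {a b : V} (h : In G S a b) : In G T a b := by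
  induction h with
  | refl => exact Relation.ReflTransGen.refl
  | tail _ h ih => exact Relation.ReflTransGen.tail ih ⟨hST h.1, h.2⟩

theorem In.lab {S : Finset V} {f : V → ℕ} (hf : ∀ u ∈ S, ∀ v ∈ S, G.Adj u v → f u = f v)
    {a b : V} (h : In G S a b) (ha : a ∈ S) : f a = f b := by
  induction h with
  | refl => rfl
  | tail h1 h2 ih => exact ih.trans (hf _ (In.mem h1 ha) _ h2.1 h2.2)

theorem first_above (hp : PEO G ρ) {S : Finset V} {y b c : V} (h : In G S b c) (hc : ρ y < ρ c)
    (hb : b = y ∨ Low G ρ (ρ y) y b) : ∃ v, In G S b v ∧ ρ y < ρ v ∧ G.Adj y v := by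
  induction h using Relation.ReflTransGen.head_induction_on with
  | refl =>
    rcases hb with rfl | hb
    · omega
    · exact ⟨c, Relation.ReflTransGen.refl, hc,
        hb.adj hp le_rfl hc.le (fun e => by rw [e] at hc; omega)⟩
  | @head b b' h1 _ ih =>
    by_cases h3 : ρ y < ρ b
    · rcases hb with rfl | hb
      · omega
      · exact ⟨b, Relation.ReflTransGen.refl, h3,
          hb.adj hp le_rfl h3.le (fun e => by rw [e] at h3; omega)⟩
    · have h4 : Low G ρ (ρ y) y b' := by
        by_cases e : b = y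
        · subst e; exact Low.base h1.2
        · have : ρ b ≠ ρ y := fun h => e (hp.inj h)
          exact Low.step (hb.resolve_left e) (by omega) h1.2
      obtain ⟨v, h5, h6⟩ := ih (Or.inr h4)
      exact ⟨v, Relation.ReflTransGen.head h1 h5, h6⟩

end Pool.Agent.Lib.MP_1d5e93_al
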